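import Pool.Agent.Lib.MP_a57f33_nt.BZ.Defs

/-!
Definitions for the rank two duality on `dm₀`.
-/

namespace Pool.Agent.MP_a57f33_nt.RD

open Pool.Agent.MP_a57f33_nt BZ Matrix

/-- The functional `K ψ`, made antisymmetric under the exchange of the letters. -/
noncomputable def Dl (ψ : QX) (w : List Bool) : ℚ := K ψ w - K ψ (w.map not)

/-- Sum over all insertions of the letter `a` in a word of the value of `f`. -/
def ins (a : Bool) : List Bool → (List Bool → ℚ) → ℚ
  | [], f => f [a]
  | c :: w, f => f (a :: c :: w) + ins a w (fun t => f (c :: t))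

/-- The combinatorial properties of `Dl ψ`. -/
structure Inv (k : List Bool → ℚ) : Prop where
  cyc : Cyc k
  dbl : ∀ C : List Bool, BZ.dbl C k = 0
  ins : ∀ (b a : Bool) (w : List Bool), RD.ins a w (fun t => k (b :: t)) = 0
  rev : ∀ w : List Bool, k w.reverse = (-1) ^ w.length * k w
  swap : ∀ w : List Bool, k (w.map not) = -k w

/-- Invariance under twists. -/
structure Tw (k : List Bool → ℚ) : Prop where
  mat : ∀ (R ι : Type) [CommRing R] [Algebra ℚ R] [Fintype ι] [DecidableEq ι] (b : Bool) (m : ℕ)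
    (X Y : Matrix ι ι R) (μ ν : R),
    SW m (fun w => k (b :: w) • ev (X + μ • (1 : Matrix ι ι R)) (Y + ν • (1 : Matrix ι ι R)) w) =
      SW m (fun w => k (b :: w) • ev X Y w)
  tr : ∀ (R ι : Type) [CommRing R] [Algebra ℚ R] [Fintype ι] [DecidableEq ι] (n : ℕ)
    (X Y : Matrix ι ι R) (μ ν : R),
    T k n (X + μ • (1 : Matrix ι ι R)) (Y + ν • (1 : Matrix ι ι R)) = T k n X Y

section ser

variable {R ι κ ρ : Type} [CommRing R] [Fintype ι] [DecidableEq ι] [Fintype κ] [DecidableEq κ]
  [Fintype ρ] [DecidableEq ρ]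

/-- A matrix of constants. -/
noncomputable def sC (A : Matrix ι κ R) : Matrix ι κ (PowerSeries R) :=
  A.map fun a => PowerSeries.C a

/-- The resolvent `(1 - X A)⁻¹ = ∑ X^n A^n`. -/
noncomputable def rs (A : Matrix ι ι R) : Matrix ι ι (PowerSeries R) :=
  Matrix.of fun i j => PowerSeries.mk fun n => (A ^ n) i j

/-- The transfer series `1 + X V (1 - X A)⁻¹ U`. -/
noncomputable def ser (A : Matrix ι ι R) (U : Matrix ι ρ R) (V : Matrix ρ ι R) :
    Matrix ρ ρ (PowerSeries R) :=
  1 + (PowerSeries.X : PowerSeries R) • (sC V * rs A * sC U)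

end ser

/-- The matrix `∑_{|w| = m} (k(0w) - k(1w)) w(A, B)`. -/
noncomputable def G {R ι : Type} [CommRing R] [Algebra ℚ R] [Fintype ι] [DecidableEq ι]
    (k : List Bool → ℚ) (m : ℕ) (A B : Matrix ι ι R) : Matrix ι ι R :=
  SW m fun w => (k (false :: w) - k (true :: w)) • ev A B w

/-- Evaluation `ψ(X, Y)` of `ψ` at a pair of matrices: the algebra map with `x₀ ↦ X`,
`x₁ ↦ Y`. -/
noncomputable def evalM {R ι : Type} [CommRing R] [Algebra ℚ R] [Fintype ι] [DecidableEq ι]
    (X Y : Matrix ι ι R) : QX →ₐ[ℚ] Matrix ι ι R :=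
  FreeAlgebra.lift ℚ fun b : Bool => if b then Y else X

end Pool.Agent.MP_a57f33_nt.RD
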