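import Pool.Agent.Lib.MP_a57f33_nt.RD.Stm

/-!
# Piece `cen`: the centralizer of a generic pair of 3×3 matrices is scalar
-/

namespace Pool.Agent.MP_a57f33_nt.RD

open Pool.Agent.MP_a57f33_nt BZ Matrix

/-- Evaluation commutes with base change. -/
lemma cen_map {R S ι : Type} [CommRing R] [Algebra ℚ R] [CommRing S] [Algebra ℚ S] [Fintype ι]
    [DecidableEq ι] (f : R →ₐ[ℚ] S) (A B : Matrix ι ι R) (h : QX) :
    (evalM A B h).map f = evalM (A.map f) (B.map f) h := by
  have e : (AlgHom.mapMatrix f).comp (evalM A B) = evalM (A.map f) (B.map f) := by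
    apply FreeAlgebra.hom_ext
    funext b
    cases b <;> simp [evalM]
  have := congrArg (fun g => g h) e
  simpa using this

/-- The coefficient ring of the generic pair. -/
abbrev CenP : Type := MvPolynomial (Bool × Fin 3 × Fin 3) ℚ

/-- The generic matrices. -/
noncomputable def cenX (b : Bool) : Matrix (Fin 3) (Fin 3) CenP :=
  Matrix.of fun i j => MvPolynomial.X (b, i, j)

/-- The matrix whose rows are the nine matrices `A ^ i * B ^ j`. -/
def cenN {R : Type} [CommRing R] (A B : Matrix (Fin 3) (Fin 3) R) :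
    Matrix (Fin 3 × Fin 3) (Fin 3 × Fin 3) R :=
  Matrix.of fun ij pq => (A ^ (ij.1 : ℕ) * B ^ (ij.2 : ℕ)) pq.1 pq.2

lemma cen_N_map {R S : Type} [CommRing R] [CommRing S] (f : R →+* S)
    (A B : Matrix (Fin 3) (Fin 3) R) : (cenN A B).map f = cenN (A.map f) (B.map f) := by
  have hp : ∀ (M : Matrix (Fin 3) (Fin 3) R) (n : ℕ), (M ^ n).map f = (M.map f) ^ n := fun M n => by
    have := map_pow (RingHom.mapMatrix f : Matrix (Fin 3) (Fin 3) R →+* _) M n
    simpa using this
  ext ij pq
  simp only [cenN, Matrix.map_apply, Matrix.of_apply]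
  rw [← hp, ← hp, ← Matrix.map_mul, Matrix.map_apply]

/-- The special pair. -/
def cenA : Matrix (Fin 3) (Fin 3) ℚ := !![0, 0, 0; 0, 1, 0; 0, 0, 2]

/-- The special pair. -/
def cenB : Matrix (Fin 3) (Fin 3) ℚ := !![0, 1, 0; 0, 0, 1; 1, 0, 0]

lemma cen_det0 : (cenN cenA cenB).det ≠ 0 := by
  intro h0
  obtain ⟨v, hv, hz⟩ := Matrix.exists_vecMul_eq_zero_iff.2 h0
  apply hv
  have key : ∀ p q : Fin 3, ∑ i : Fin 3, ∑ j : Fin 3,
      v (i, j) * (cenA ^ (i : ℕ) * cenB ^ (j : ℕ)) p q = 0 := by
    intro p q
    have := congrFun hz (p, q)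
    simpa [Matrix.vecMul, dotProduct, Fintype.sum_prod_type, cenN] using this
  have e00 := key 0 0
  have e01 := key 0 1
  have e02 := key 0 2
  have e10 := key 1 0
  have e11 := key 1 1
  have e12 := key 1 2
  have e20 := key 2 0
  have e21 := key 2 1
  have e22 := key 2 2
  simp [Fin.sum_univ_three, cenA, cenB, Matrix.mul_apply, pow_two] at e00 e01 e02 e10 e11 e12 e20 e21 e22
  funext ij
  obtain ⟨i, j⟩ := ij
  fin_cases i <;> fin_cases j <;> simp <;> linarith

lemma cen_det : (cenN (cenX false) (cenX true)).det ≠ 0 := by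
  intro h0
  let f : CenP →+* ℚ := (MvPolynomial.aeval fun x : Bool × Fin 3 × Fin 3 =>
    if x.1 then cenB x.2.1 x.2.2 else cenA x.2.1 x.2.2 : CenP →ₐ[ℚ] ℚ).toRingHom
  have hA : (cenX false).map f = cenA := by
    ext i j
    simp [cenX, f]
  have hB : (cenX true).map f = cenB := by
    ext i j
    simp [cenX, f]
  have := cen_N_map f (cenX false) (cenX true)
  rw [hA, hB] at this
  apply cen_det0
  rw [← this]
  have h1 := RingHom.map_det f (cenN (cenX false) (cenX true))
  rw [h0, map_zero] at h1
  simpa using h1.symm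

/-- A matrix that commutes with the generic pair and has trace zero is zero. -/
lemma cen_zero (H : Matrix (Fin 3) (Fin 3) CenP) (hA : H * cenX false = cenX false * H)
    (hB : H * cenX true = cenX true * H) (ht : H.trace = 0) : H = 0 := by
  set A := cenX false
  set B := cenX true
  have hc : ∀ i j : ℕ, Commute (A ^ i * B ^ j) H := fun i j =>
    Commute.mul_left (Commute.pow_left (Commute.symm hA) i) (Commute.pow_left (Commute.symm hB) j)
  have hd : ∀ p q : Fin 3, ∑ ij : Fin 3 × Fin 3, (cenN A B).adjugate (p, q) ij •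
      (A ^ (ij.1 : ℕ) * B ^ (ij.2 : ℕ)) = (cenN A B).det • Matrix.single p q (1 : CenP) := by
    intro p q
    refine Matrix.ext fun r s => ?_
    have := congrFun (congrFun (Matrix.adjugate_mul (cenN A B)) (p, q)) (r, s)
    rw [Matrix.mul_apply] at this
    rw [Matrix.sum_apply]
    simp only [Matrix.smul_apply, smul_eq_mul]
    rw [Matrix.smul_apply, smul_eq_mul, Matrix.one_apply] at this
    rw [Matrix.single_apply]
    simp only [Prod.mk.injEq] at this
    exact this
  have hs : Pairwise fun i j => Commute (Matrix.single i j (1 : CenP)) H := by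
    intro p q _
    have h1 : Commute ((cenN A B).det • Matrix.single p q (1 : CenP)) H := by
      rw [← hd]
      exact Commute.sum_left _ _ _ fun ij _ => (hc _ _).smul_left _
    have h2 : (cenN A B).det • (Matrix.single p q (1 : CenP) * H - H * Matrix.single p q 1) = 0 := by
      have h3 := h1.eq
      rw [Matrix.smul_mul, Matrix.mul_smul] at h3
      rw [smul_sub, h3, sub_self]
    rcases smul_eq_zero.1 h2 with h | h
    · exact absurd h cen_det
    · exact sub_eq_zero.1 h
  obtain ⟨c, rfl⟩ := Matrix.mem_range_scalar_of_commute_single hs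
  have : (3 : CenP) * c = 0 := by
    rw [← ht]
    simp [Matrix.trace]
  have hc0 : c = 0 := by
    rcases mul_eq_zero.1 this with h | h
    · exfalso
      simp at h
    · exact h
  rw [hc0, map_zero]

theorem p_cen : CenS := by
  intro h hh R _ _ A B
  have hg : evalM (cenX false) (cenX true) h = 0 := by
    obtain ⟨h1, h2, h3⟩ := hh CenP (cenX false) (cenX true)
    exact cen_zero _ h1 h2 h3
  let f : CenP →ₐ[ℚ] R := MvPolynomial.aeval fun x : Bool × Fin 3 × Fin 3 =>
    if x.1 then B x.2.1 x.2.2 else A x.2.1 x.2.2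
  have hA : (cenX false).map f = A := by
    ext i j
    simp [cenX, f]
  have hB : (cenX true).map f = B := by
    ext i j
    simp [cenX, f]
  have := cen_map f (cenX false) (cenX true) h
  rw [hA, hB, hg] at this
  rw [← this]
  ext i j
  simp

end Pool.Agent.MP_a57f33_nt.RD
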