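import Pool.Agent.Lib.MP_a57f33_nt.RD.Stm
import Pool.Agent.Lib.MP_a57f33_nt.BZ.P_cnv

/-!
# RD dT: transposition and reversal
-/

namespace Pool.Agent.MP_a57f33_nt.RD

open Pool.Agent.MP_a57f33_nt BZ Matrix

theorem dT_SW_rev {M : Type} [AddCommMonoid M] (n : ℕ) : ∀ f : List Bool → M,
    SW n (fun w => f w.reverse) = SW n f := by
  induction n with
  | zero => intro f; rfl
  | succ n ih =>
    intro f
    rw [cnv_SW_snoc n (fun w => f w.reverse)]
    simp only [List.reverse_append, List.reverse_cons, List.reverse_nil, List.nil_append,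
      List.singleton_append, SW]
    rw [ih (fun w => f (false :: w)), ih (fun w => f (true :: w))]

theorem dT_SW_not {M : Type} [AddCommMonoid M] (n : ℕ) : ∀ f : List Bool → M,
    SW n (fun w => f (w.map not)) = SW n f := by
  induction n with
  | zero => intro f; rfl
  | succ n ih =>
    intro f
    simp only [SW, List.map_cons, Bool.not_false, Bool.not_true]
    rw [ih (fun w => f (true :: w)), ih (fun w => f (false :: w)), add_comm]

theorem dT_ev_not {S : Type} [Monoid S] (A B : S) (w : List Bool) :
    ev A B (w.map not) = ev B A w := by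
  unfold ev
  rw [List.map_map]
  congr 2
  funext b
  cases b <;> rfl

theorem dT_ev {R ι : Type} [CommRing R] [Fintype ι] [DecidableEq ι] (A B : Matrix ι ι R)
    (w : List Bool) : ev (-Bᵀ) (-Aᵀ) w = ((-1 : R) ^ w.length) • (ev B A w.reverse)ᵀ := by
  induction w with
  | nil => simp [ev]
  | cons b w ih =>
    rw [cnv_ev_cons, ih, List.reverse_cons, cnv_ev_append, transpose_mul, List.length_cons,
      pow_succ]
    have h1 : ev B A [b] = cond b A B := by simp [ev]
    rw [h1]
    cases b
    · simp only [cond_false]
      rw [mul_smul_comm, neg_mul, smul_neg, mul_neg_one, neg_smul]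
    · simp only [cond_true]
      rw [mul_smul_comm, neg_mul, smul_neg, mul_neg_one, neg_smul]

theorem p_dT : DTS := by
  intro R ι _ _ _ _ k hk n A B
  unfold T
  have e1 : SW n (fun w => k w • (ev (-Bᵀ) (-Aᵀ) w).trace) =
      SW n (fun w => k w.reverse • (ev B A w.reverse).trace) := by
    refine cnv_SW_congr n fun w _ => ?_
    rw [dT_ev, trace_smul, trace_transpose, hk.rev w, smul_eq_mul]
    rcases neg_one_pow_eq_or ℚ w.length with h | h
    · have h2 : (-1 : R) ^ w.length = 1 := by
        have := congrArg (algebraMap ℚ R) h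
        simpa using this
      rw [h, h2, one_mul, one_mul]
    · have h2 : (-1 : R) ^ w.length = -1 := by
        have := congrArg (algebraMap ℚ R) h
        simpa using this
      rw [h, h2, neg_one_mul, neg_one_mul, smul_neg, neg_smul]
  rw [e1, dT_SW_rev n (fun w => k w • (ev B A w).trace),
    ← dT_SW_not n (fun w => k w • (ev B A w).trace)]
  have e2 : SW n (fun w => k (w.map not) • (ev B A (w.map not)).trace) =
      SW n (fun w => (-1 : ℚ) • (k w • (ev A B w).trace)) := by
    refine cnv_SW_congr n fun w _ => ?_
    rw [dT_ev_not, hk.swap w, neg_smul, neg_one_smul]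
  rw [e2]
  have e3 := cnv_SW_map (DistribMulAction.toAddMonoidHom R (-1 : ℚ)) n
    (fun w => k w • (ev A B w).trace)
  simp only [DistribMulAction.toAddMonoidHom_apply] at e3
  rw [← e3, neg_one_smul]

end Pool.Agent.MP_a57f33_nt.RD
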