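import Pool.Agent.Lib.MP_a57f33_nt.RD.Stm

set_option autoImplicit false

/-!
Piece det: Sylvester's determinant identity for the transfer series.
-/

namespace Pool.Agent.MP_a57f33_nt.RD

open Pool.Agent.MP_a57f33_nt BZ Matrix

section detsec

variable {R ι κ ρ : Type} [CommRing R] [Fintype ι] [DecidableEq ι] [Fintype κ] [DecidableEq κ]
  [Fintype ρ] [DecidableEq ρ]

theorem det_sC_mul (A : Matrix ι κ R) (B : Matrix κ ρ R) : sC (A * B) = sC A * sC B := by
  have h := Matrix.map_mul (L := A) (M := B) (f := (PowerSeries.C : R →+* PowerSeries R))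
  exact h

theorem det_sC_add (A B : Matrix ι κ R) : sC (A + B) = sC A + sC B := by
  ext i j
  simp [sC]

end detsec

theorem p_det : DetS := by
  intro hrs R ι ρ _ _ _ _ _ A B U V h
  obtain ⟨h1, -⟩ := hrs R ι A
  have e1 : (ser A U V).det =
      (1 + ((PowerSeries.X : PowerSeries R) • (rs A * sC U)) * sC V).det := by
    have : ser A U V = 1 + sC V * ((PowerSeries.X : PowerSeries R) • (rs A * sC U)) := by
      rw [ser, Matrix.mul_smul, Matrix.mul_assoc]
    rw [this, Matrix.det_one_add_mul_comm]
  rw [e1, ← Matrix.det_mul]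
  congr 1
  have e2 : (1 - (PowerSeries.X : PowerSeries R) • sC A) *
      (((PowerSeries.X : PowerSeries R) • (rs A * sC U)) * sC V) =
      (PowerSeries.X : PowerSeries R) • sC (U * V) := by
    rw [Matrix.smul_mul, Matrix.mul_smul, Matrix.mul_assoc (rs A), ← Matrix.mul_assoc _ (rs A),
      h1, Matrix.one_mul, det_sC_mul]
  rw [Matrix.mul_add, Matrix.mul_one, e2, ← h, det_sC_add, smul_add]
  abel

end Pool.Agent.MP_a57f33_nt.RD
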