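import Pool.Agent.Lib.MP_a57f33_nt.RD.Stm

/-!
# [dsr] the transfer series of the dual pair is the inverse
-/

namespace Pool.Agent.MP_a57f33_nt.RD

open Pool.Agent.MP_a57f33_nt BZ Matrix

/-- The resolvent identity, abstractly. -/
theorem dsr_abs {S ι ρ : Type} [CommRing S] [Fintype ι] [DecidableEq ι] [Fintype ρ]
    [DecidableEq ρ] (r r' : Matrix ι ι S) (U : Matrix ι ρ S) (V : Matrix ρ ι S) (x : S)
    (h : x • (r * (U * V) * r') = r - r') :
    (1 + x • (V * r * U)) * (1 - x • (V * r' * U)) = 1 := by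
  have h1 : (x • (V * r * U)) * (x • (V * r' * U)) =
      x • (V * (x • (r * (U * V) * r')) * U) := by
    simp only [Matrix.mul_smul, Matrix.smul_mul, Matrix.mul_assoc]
  rw [mul_sub, mul_one, add_mul, one_mul, h1, h, Matrix.mul_sub, Matrix.sub_mul, smul_sub]
  abel

/-- Constants: products. -/
theorem dsr_sC_mul {R ι κ ρ : Type} [CommRing R] [Fintype κ] (A : Matrix ι κ R)
    (B : Matrix κ ρ R) : sC (A * B) = sC A * sC B := by
  unfold sC
  exact Matrix.map_mul (f := (PowerSeries.C : R →+* PowerSeries R))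

/-- Transpose of the resolvent. -/
theorem dsr_rs {R ι : Type} [CommRing R] [Fintype ι] [DecidableEq ι] (B : Matrix ι ι R) :
    (rs (-Bᵀ))ᵀ = rs (-B) := by
  ext i j n
  simp only [rs, Matrix.transpose_apply, Matrix.of_apply, PowerSeries.coeff_mk]
  rw [← Matrix.transpose_neg, ← Matrix.transpose_pow, Matrix.transpose_apply]

theorem p_dsr : DsrS := by
  intro hrs R ι ρ _ _ _ _ _ A B U V hAB
  obtain ⟨ha1, ha2⟩ := hrs R ι A
  obtain ⟨hb1, hb2⟩ := hrs R ι (-B)
  have hsum : (PowerSeries.X : PowerSeries R) • (sC U * sC V) =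
      (1 - (PowerSeries.X : PowerSeries R) • sC (-B)) -
        (1 - (PowerSeries.X : PowerSeries R) • sC A) := by
    rw [← dsr_sC_mul, ← hAB, sub_sub_sub_cancel_left, ← smul_sub]
    congr 1
    ext i j : 2
    simp [sC]
  have hres : (PowerSeries.X : PowerSeries R) • (rs A * (sC U * sC V) * rs (-B)) =
      rs A - rs (-B) := by
    rw [← Matrix.smul_mul, ← Matrix.mul_smul, hsum, Matrix.mul_sub, Matrix.sub_mul,
      Matrix.mul_assoc, hb1, Matrix.mul_one, ha2, Matrix.one_mul]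
  have htr : (ser (-Bᵀ) (-Vᵀ) Uᵀ)ᵀ =
      1 - (PowerSeries.X : PowerSeries R) • (sC V * rs (-B) * sC U) := by
    have h1 : (sC Uᵀ)ᵀ = sC U := rfl
    have h2 : (sC (-Vᵀ))ᵀ = -sC V := by
      ext i j : 2
      simp [sC]
    unfold ser
    rw [Matrix.transpose_add, Matrix.transpose_one, Matrix.transpose_smul, Matrix.transpose_mul,
      Matrix.transpose_mul, h1, h2, dsr_rs, Matrix.neg_mul, smul_neg, ← sub_eq_add_neg,
      Matrix.mul_assoc]
  rw [htr]
  exact dsr_abs (rs A) (rs (-B)) (sC U) (sC V) PowerSeries.X hres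

end Pool.Agent.MP_a57f33_nt.RD
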