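import Pool.Agent.Lib.MP_a57f33_nt.RD.Stm
import Pool.Agent.Lib.MP_a57f33_nt.BZ.P_map

/-!
Piece [gen]: base change of the rank two family.
-/

namespace Pool.Agent.MP_a57f33_nt.RD

open Pool.Agent.MP_a57f33_nt BZ Matrix

theorem gen_SW_sub {M : Type} [AddCommGroup M] (n : ℕ) : ∀ f g : List Bool → M,
    SW n (fun w => f w - g w) = SW n f - SW n g := by
  induction n with
  | zero => intro f g; rfl
  | succ n ih =>
    intro f g
    simp only [SW]
    rw [ih (fun w => f (false :: w)) (fun w => g (false :: w)),
      ih (fun w => f (true :: w)) (fun w => g (true :: w))]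
    abel

/-- the gradient as a difference. -/
theorem gen_G_eq {R ι : Type} [CommRing R] [Algebra ℚ R] [Fintype ι] [DecidableEq ι]
    (k : List Bool → ℚ) (m : ℕ) (A B : Matrix ι ι R) :
    G k m A B = SW m (fun w => k (false :: w) • ev A B w) -
      SW m (fun w => k (true :: w) • ev A B w) := by
  unfold G
  rw [← gen_SW_sub]
  congr 1
  funext w
  rw [sub_smul]

/-- the gradient commutes with algebra maps. -/
theorem gen_G_map {R S ι : Type} [CommRing R] [Algebra ℚ R] [CommRing S] [Algebra ℚ S]
    [Fintype ι] [DecidableEq ι] (g : R →+* S) (k : List Bool → ℚ) (m : ℕ) (A B : Matrix ι ι R) :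
    G k m (A.map g) (B.map g) = (G k m A B).map g := by
  unfold G
  have h : (fun w => (k (false :: w) - k (true :: w)) • ev (A.map g) (B.map g) w) =
      fun w => (g.mapMatrix : Matrix ι ι R →+* Matrix ι ι S).toAddMonoidHom
        ((k (false :: w) - k (true :: w)) • ev A B w) := by
    funext w
    rw [map_ev g A B w]
    show _ = g.mapMatrix ((k (false :: w) - k (true :: w)) • ev A B w)
    ext i j
    simp only [RingHom.mapMatrix_apply, Matrix.map_apply, Matrix.smul_apply]
    exact (map_rat_smul g _ _).symm
  rw [h]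
  exact map_SW (g.mapMatrix : Matrix ι ι R →+* Matrix ι ι S).toAddMonoidHom m _

/-- twist by a scalar. -/
theorem gen_twist {R ι : Type} [CommRing R] [Algebra ℚ R] [Fintype ι] [DecidableEq ι]
    (k : List Bool → ℚ) (hk : Tw k) (m : ℕ) (X Y : Matrix ι ι R) (c : R) :
    G k m (X + c • (1 : Matrix ι ι R)) Y = G k m X Y := by
  rw [gen_G_eq, gen_G_eq]
  have h1 := hk.mat R ι false m X Y c 0
  have h2 := hk.mat R ι true m X Y c 0
  rw [zero_smul, add_zero] at h1 h2
  rw [h1, h2]

/-- the indices of the generic matrices. -/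
private abbrev gen_σ (n : ℕ) : Type := (Fin n × Fin n) ⊕ ((Fin n × Fin 2) ⊕ (Fin 2 × Fin n))

private noncomputable def gen_A (n : ℕ) : Matrix (Fin n) (Fin n) (MvPolynomial (gen_σ n) ℚ) :=
  Matrix.of fun i j => MvPolynomial.X (Sum.inl (i, j))

private noncomputable def gen_U (n : ℕ) : Matrix (Fin n) (Fin 2) (MvPolynomial (gen_σ n) ℚ) :=
  Matrix.of fun i j => MvPolynomial.X (Sum.inr (Sum.inl (i, j)))

private noncomputable def gen_V (n : ℕ) : Matrix (Fin 2) (Fin n) (MvPolynomial (gen_σ n) ℚ) :=
  Matrix.of fun i j => MvPolynomial.X (Sum.inr (Sum.inr (i, j)))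

theorem p_gen : GenS := by
  intro k hk m hF R _ _ n A c U V
  -- the generic case
  have hgen : G k m (gen_A n) (gen_U n * gen_V n - gen_A n) = 0 := by
    let P := MvPolynomial (gen_σ n) ℚ
    let F := AlgebraicClosure (FractionRing P)
    let g : P →+* F := (algebraMap (FractionRing P) F).comp (algebraMap P (FractionRing P))
    have hg : Function.Injective g :=
      (algebraMap (FractionRing P) F).injective.comp (IsFractionRing.injective P (FractionRing P))
    have h1 := hF F n ((gen_A n).map g) ((gen_U n).map g) ((gen_V n).map g)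
    have h2 : (gen_U n).map g * (gen_V n).map g - (gen_A n).map g =
        (gen_U n * gen_V n - gen_A n).map g := by
      rw [Matrix.map_sub g (fun a b => map_sub g a b), Matrix.map_mul]
    rw [h2, gen_G_map g k m] at h1
    refine Matrix.ext fun i j => ?_
    have h3 := congrFun (congrFun h1 i) j
    rw [Matrix.map_apply, Matrix.zero_apply] at h3
    exact hg (by rw [h3, Matrix.zero_apply, map_zero])
  -- specialisation
  have hspec : ∀ A : Matrix (Fin n) (Fin n) R, G k m A (U * V - A) = 0 := by
    intro A
    let g : MvPolynomial (gen_σ n) ℚ →+* R := (MvPolynomial.aeval (R := ℚ) (S₁ := R)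
      (fun s : gen_σ n => match s with
        | Sum.inl (i, j) => A i j
        | Sum.inr (Sum.inl (i, j)) => U i j
        | Sum.inr (Sum.inr (i, j)) => V i j)).toRingHom
    have hA : (gen_A n).map g = A := by
      ext i j
      show g (MvPolynomial.X (Sum.inl (i, j))) = A i j
      exact MvPolynomial.aeval_X _ _
    have hU : (gen_U n).map g = U := by
      ext i j
      show g (MvPolynomial.X (Sum.inr (Sum.inl (i, j)))) = U i j
      exact MvPolynomial.aeval_X _ _
    have hV : (gen_V n).map g = V := by
      ext i j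
      show g (MvPolynomial.X (Sum.inr (Sum.inr (i, j)))) = V i j
      exact MvPolynomial.aeval_X _ _
    have h1 := gen_G_map g k m (gen_A n) (gen_U n * gen_V n - gen_A n)
    rw [hgen, Matrix.map_sub g (fun a b => map_sub g a b), Matrix.map_mul, hA, hU, hV] at h1
    rw [h1]
    ext i j
    rw [Matrix.map_apply, Matrix.zero_apply, Matrix.zero_apply, map_zero]
  -- the twist
  have h := hspec (A - c • (1 : Matrix (Fin n) (Fin n) R))
  have h2 := gen_twist k hk m (A - c • (1 : Matrix (Fin n) (Fin n) R))
    (U * V - (A - c • (1 : Matrix (Fin n) (Fin n) R))) c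
  rw [h, sub_add_cancel] at h2
  rw [← h2]
  congr 1
  abel

end Pool.Agent.MP_a57f33_nt.RD
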