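import Pool.Agent.Lib.MP_a57f33_nt.RD.Stm
import Pool.Agent.Lib.MP_a57f33_nt.BZ.P_map

/-!
Piece [gn3]: all three by three matrices.
-/

namespace Pool.Agent.MP_a57f33_nt.RD

open Pool.Agent.MP_a57f33_nt BZ Matrix

theorem gn3_map {R S ι : Type} [CommRing R] [Algebra ℚ R] [CommRing S] [Algebra ℚ S] [Fintype ι]
    [DecidableEq ι] (g : R →+* S) (k : List Bool → ℚ) (m : ℕ) (A B : Matrix ι ι R) :
    G k m (A.map g) (B.map g) = (G k m A B).map g := by
  unfold G
  have h : (fun w => (k (false :: w) - k (true :: w)) • ev (A.map g) (B.map g) w) =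
      fun w => (g.mapMatrix : Matrix ι ι R →+* Matrix ι ι S).toAddMonoidHom
        ((k (false :: w) - k (true :: w)) • ev A B w) := by
    funext w
    rw [map_ev g A B w]
    exact (map_rat_smul (g.mapMatrix : Matrix ι ι R →+* Matrix ι ι S) _ _).symm
  rw [h]
  exact map_SW (g.mapMatrix : Matrix ι ι R →+* Matrix ι ι S).toAddMonoidHom m _

theorem gn3_SW_sub {M : Type} [AddCommGroup M] (n : ℕ) : ∀ f g : List Bool → M,
    SW n (fun w => f w - g w) = SW n f - SW n g := by
  induction n with
  | zero => intro f g; rfl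
  | succ n ih =>
    intro f g
    simp only [SW]
    rw [ih (fun w => f (false :: w)) (fun w => g (false :: w)),
      ih (fun w => f (true :: w)) (fun w => g (true :: w))]
    abel

theorem gn3_split {R ι : Type} [CommRing R] [Algebra ℚ R] [Fintype ι] [DecidableEq ι]
    (k : List Bool → ℚ) (m : ℕ) (A B : Matrix ι ι R) :
    G k m A B = SW m (fun w => k (false :: w) • ev A B w) -
      SW m (fun w => k (true :: w) • ev A B w) := by
  unfold G
  rw [← gn3_SW_sub]
  simp only [sub_smul]

theorem gn3_fac {F : Type} [Field F] (N : Matrix (Fin 3) (Fin 3) F) (h : N.det = 0) :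
    ∃ (U : Matrix (Fin 3) (Fin 2) F) (V : Matrix (Fin 2) (Fin 3) F), N = U * V := by
  obtain ⟨v, hv, hN⟩ := Matrix.exists_mulVec_eq_zero_iff.2 h
  obtain ⟨i, hi⟩ : ∃ i, v i ≠ 0 := by
    by_contra hcon
    push Not at hcon
    exact hv (funext hcon)
  refine ⟨N.submatrix id i.succAbove, Matrix.of fun p q =>
    if q = i then -(v (i.succAbove p) / v i) else if q = i.succAbove p then 1 else 0, ?_⟩
  ext r q
  rw [Matrix.mul_apply]
  simp only [Matrix.submatrix_apply, id_eq, Matrix.of_apply]
  rcases Fin.eq_self_or_eq_succAbove i q with rfl | ⟨p, rfl⟩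
  · have h1 := congrFun hN r
    rw [Matrix.mulVec, dotProduct, Fin.sum_univ_succAbove _ q] at h1
    simp only [if_true]
    have h2 : ∑ x : Fin 2, N r (q.succAbove x) * -(v (q.succAbove x) / v q) =
        -(∑ x : Fin 2, N r (q.succAbove x) * v (q.succAbove x)) / v q := by
      rw [neg_div, Finset.sum_div, ← Finset.sum_neg_distrib]
      refine Finset.sum_congr rfl fun x _ => ?_
      ring
    rw [h2, eq_div_iff hi]
    simp only [Pi.zero_apply] at h1
    linear_combination h1
  · have h1 : i.succAbove p ≠ i := Fin.succAbove_ne i p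
    simp only [h1, if_false]
    rw [Finset.sum_eq_single p]
    · simp
    · intro b _ hb
      have : i.succAbove p ≠ i.succAbove b := fun h => hb (Fin.succAbove_right_injective h).symm
      simp [this]
    · intro h; exact absurd (Finset.mem_univ p) h

theorem gn3_eig {F : Type} [Field F] [IsAlgClosed F] (D : Matrix (Fin 3) (Fin 3) F) :
    ∃ c : F, (D - c • (1 : Matrix (Fin 3) (Fin 3) F)).det = 0 := by
  have hd : D.charpoly.degree ≠ 0 := by
    rw [Matrix.charpoly_degree_eq_dim]
    simp
  obtain ⟨c, hc⟩ := IsAlgClosed.exists_root D.charpoly hd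
  refine ⟨c, ?_⟩
  have h1 : D.charpoly.eval c = (Matrix.scalar (Fin 3) c - D).det := by
    rw [Matrix.eval_charpoly]
  rw [Polynomial.IsRoot.def, h1] at hc
  have h2 : D - c • (1 : Matrix (Fin 3) (Fin 3) F) = -(Matrix.scalar (Fin 3) c - D) := by
    rw [Matrix.smul_one_eq_diagonal]
    simp
  rw [h2, Matrix.det_neg, hc, mul_zero]

theorem p_gn3 : Gn3S := by
  intro k hk m H
  -- algebraically closed fields
  have h1 : ∀ (F : Type) [Field F] [Algebra ℚ F] [IsAlgClosed F]
      (A B : Matrix (Fin 3) (Fin 3) F), G k m A B = 0 := by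
    intro F _ _ _ A B
    obtain ⟨c, hc⟩ := gn3_eig (A + B)
    obtain ⟨U, V, hUV⟩ := gn3_fac _ hc
    have h2 := H F (A + (-c) • (1 : Matrix (Fin 3) (Fin 3) F)) U V
    have h3 : U * V - (A + (-c) • (1 : Matrix (Fin 3) (Fin 3) F)) =
        B + (0 : F) • (1 : Matrix (Fin 3) (Fin 3) F) := by
      rw [← hUV]
      simp only [neg_smul, zero_smul, add_zero]
      abel
    rw [h3] at h2
    have h4 := gn3_split k m (A + (-c) • (1 : Matrix (Fin 3) (Fin 3) F))
      (B + (0 : F) • (1 : Matrix (Fin 3) (Fin 3) F))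
    rw [h2, hk.mat F (Fin 3) true m A B (-c) 0, hk.mat F (Fin 3) false m A B (-c) 0,
      ← gn3_split k m A B] at h4
    exact h4.symm
  -- base change
  intro R _ _ A B
  let P := MvPolynomial (Bool × Fin 3 × Fin 3) ℚ
  let F := AlgebraicClosure (FractionRing P)
  let gA : Matrix (Fin 3) (Fin 3) P := Matrix.of fun i j => MvPolynomial.X (false, i, j)
  let gB : Matrix (Fin 3) (Fin 3) P := Matrix.of fun i j => MvPolynomial.X (true, i, j)
  let e : P →+* F := (algebraMap (FractionRing P) F).comp (algebraMap P (FractionRing P))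
  have he : Function.Injective e :=
    (algebraMap (FractionRing P) F).injective.comp (IsFractionRing.injective P (FractionRing P))
  have h5 : G k m gA gB = 0 := by
    have h6 := gn3_map e k m gA gB
    rw [h1 F] at h6
    refine Matrix.ext fun i j => he ?_
    have h7 := congrFun (congrFun h6 i) j
    simp only [Matrix.zero_apply, Matrix.map_apply] at h7
    rw [Matrix.zero_apply, ← h7, map_zero]
  let s : P →+* R := (MvPolynomial.aeval (fun x : Bool × Fin 3 × Fin 3 =>
    if x.1 then B x.2.1 x.2.2 else A x.2.1 x.2.2) : P →ₐ[ℚ] R).toRingHom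
  have hA : gA.map s = A := by
    refine Matrix.ext fun i j => ?_
    exact (MvPolynomial.aeval_X (fun x : Bool × Fin 3 × Fin 3 =>
      if x.1 then B x.2.1 x.2.2 else A x.2.1 x.2.2) (false, i, j)).trans (by simp)
  have hB : gB.map s = B := by
    refine Matrix.ext fun i j => ?_
    exact (MvPolynomial.aeval_X (fun x : Bool × Fin 3 × Fin 3 =>
      if x.1 then B x.2.1 x.2.2 else A x.2.1 x.2.2) (true, i, j)).trans (by simp)
  have h8 := gn3_map s k m gA gB
  rw [hA, hB, h5] at h8
  rw [h8]
  ext i j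
  simp

end Pool.Agent.MP_a57f33_nt.RD
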