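import Pool.Agent.Lib.MP_a57f33_nt.RD.Stm
import Pool.Agent.Lib.MP_a57f33_nt.BZ.P_cnv
import Pool.Agent.Lib.MP_a57f33_nt.BZ.P_map

/-!
Piece [grd]: the gradient of the trace functional along `B = D - A`.
-/

namespace Pool.Agent.MP_a57f33_nt.RD

open Pool.Agent.MP_a57f33_nt BZ Matrix Polynomial

variable {F ι : Type} [Field F] [Algebra ℚ F]

theorem grd_SW_add {M : Type} [AddCommMonoid M] (n : ℕ) : ∀ f g : List Bool → M,
    SW n f + SW n g = SW n (fun x => f x + g x) := by
  induction n with
  | zero => intro f g; rfl
  | succ n ih =>
    intro f g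
    simp only [SW]
    rw [← ih, ← ih]
    abel

theorem grd_fin {R κ : Type} [CommRing R] [Algebra ℚ R] [Fintype κ] (a b : ℚ)
    (E M : Matrix κ κ R) :
    (E * ((a - b) • M)).trace = a • (E * M).trace + b • (-E * M).trace := by
  rw [Matrix.mul_smul, Matrix.trace_smul, Matrix.neg_mul, Matrix.trace_neg, sub_smul, smul_neg,
    sub_eq_add_neg]

/-- evaluation at `z` as a homomorphism of `ℚ`-algebras -/
noncomputable def grd_ev (z : F) : F[X] →ₐ[ℚ] F where
  toRingHom := Polynomial.evalRingHom z
  commutes' := by
    intro r
    change Polynomial.eval z (algebraMap ℚ F[X] r) = algebraMap ℚ F r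
    rw [Polynomial.algebraMap_apply, Polynomial.eval_C]

theorem grd_ev_apply (z : F) (p : F[X]) : grd_ev z p = p.eval z := rfl

theorem grd_map (A E : Matrix ι ι F) (z : F) :
    (A.map C + (X : F[X]) • E.map C).map (grd_ev z) = A + z • E := by
  ext i j
  simp [grd_ev_apply]
  ring

theorem p_grd : GrdS := by
  intro F ι _ _ _ _ k hk m D hT A
  have : CharZero F := algebraRat.charZero F
  have hinf : Infinite F := inferInstance
  -- trace with an arbitrary matrix
  have key : ∀ E : Matrix ι ι F, (E * G k m A (D - A)).trace = 0 := by
    intro E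
    set P : F[X] := T k (m + 1) (A.map C + (X : F[X]) • E.map C)
      ((D - A).map C + (X : F[X]) • (-E).map C) with hP
    have hP0 : P = 0 := by
      apply Polynomial.funext
      intro z
      have h1 := p_map F[X] F ι (grd_ev z) k (m + 1) (A.map C + (X : F[X]) • E.map C)
        ((D - A).map C + (X : F[X]) • (-E).map C)
      rw [grd_map, grd_map] at h1
      rw [eval_zero, ← grd_ev_apply, hP, ← h1]
      have h2 : D - A + z • (-E) = D - (A + z • E) := by
        rw [smul_neg]; abel
      rw [h2]
      exact hT _
    have hD1 : cnv_D (A.map C + (X : F[X]) • E.map C) = E.map C := by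
      ext i j : 1
      simp [cnv_D]
    have hD2 : cnv_D ((D - A).map C + (X : F[X]) • (-E).map C) = (-E).map C := by
      ext i j : 1
      simp [cnv_D]
    have h1 := cnv_T k hk (A.map C + (X : F[X]) • E.map C)
      ((D - A).map C + (X : F[X]) • (-E).map C) (m + 1)
    rw [← hP, hP0, derivative_zero, hD1, hD2] at h1
    have h2 : (SW (m + 1) (fun w => match w with
      | [] => (0 : F[X])
      | j :: x => k (j :: x) • (cond j ((-E).map C) (E.map C) *
          ev (A.map C + (X : F[X]) • E.map C)
            ((D - A).map C + (X : F[X]) • (-E).map C) x).trace)) = 0 := by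
      rcases smul_eq_zero.1 h1.symm with h | h
      · omega
      · exact h
    -- evaluate at zero
    have h3 := congrArg (grd_ev (0 : F)) h2
    rw [map_zero] at h3
    have h4 := map_SW ((grd_ev (0 : F)) : F[X] →+ F) (m + 1) (fun w => match w with
      | [] => (0 : F[X])
      | j :: x => k (j :: x) • (cond j ((-E).map C) (E.map C) *
          ev (A.map C + (X : F[X]) • E.map C)
            ((D - A).map C + (X : F[X]) • (-E).map C) x).trace)
    have h5 : ((grd_ev (0 : F)) : F[X] →+ F) (SW (m + 1) (fun w => match w with
      | [] => (0 : F[X])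
      | j :: x => k (j :: x) • (cond j ((-E).map C) (E.map C) *
          ev (A.map C + (X : F[X]) • E.map C)
            ((D - A).map C + (X : F[X]) • (-E).map C) x).trace)) = 0 := h3
    rw [h5] at h4
    have h6 : ∀ (j : Bool) (x : List Bool), ((grd_ev (0 : F)) : F[X] →+ F)
        (k (j :: x) • (cond j ((-E).map C) (E.map C) *
          ev (A.map C + (X : F[X]) • E.map C)
            ((D - A).map C + (X : F[X]) • (-E).map C) x).trace) =
        k (j :: x) • (cond j (-E) E * ev A (D - A) x).trace := by
      intro j x
      have e1 : ∀ M : Matrix ι ι F[X], (grd_ev (0 : F)) M.trace = (M.map (grd_ev (0 : F))).trace := by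
        intro M
        simp [Matrix.trace, map_sum]
      have e2 : (cond j ((-E).map C) (E.map C)).map (grd_ev (0 : F)) = cond j (-E) E := by
        cases j
        · ext i l; simp [grd_ev_apply]
        · ext i l; simp [grd_ev_apply]
      change (grd_ev (0 : F)) (k (j :: x) • _) = _
      rw [map_smul, e1]
      congr 2
      have e3 := Matrix.map_mul (L := cond j ((-E).map C) (E.map C))
        (M := ev (A.map C + (X : F[X]) • E.map C)
            ((D - A).map C + (X : F[X]) • (-E).map C) x) (f := (grd_ev (0 : F)).toRingHom)
      have e4 := map_ev (grd_ev (0 : F)).toRingHom (A.map C + (X : F[X]) • E.map C)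
        ((D - A).map C + (X : F[X]) • (-E).map C) x
      have e5 : (A.map C + (X : F[X]) • E.map C).map (grd_ev (0 : F)).toRingHom = A := by
        have := grd_map A E (0 : F)
        rw [zero_smul, add_zero] at this
        exact this
      have e6 : ((D - A).map C + (X : F[X]) • (-E).map C).map (grd_ev (0 : F)).toRingHom =
          D - A := by
        have := grd_map (D - A) (-E) (0 : F)
        rw [zero_smul, add_zero] at this
        exact this
      rw [e5, e6] at e4
      refine e3.trans ?_
      rw [← e4]
      congr 1
    simp only [SW] at h4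
    have h7 : SW m (fun x => ((grd_ev (0 : F)) : F[X] →+ F)
        (k (false :: x) • (cond false ((-E).map C) (E.map C) *
          ev (A.map C + (X : F[X]) • E.map C)
            ((D - A).map C + (X : F[X]) • (-E).map C) x).trace)) +
        SW m (fun x => ((grd_ev (0 : F)) : F[X] →+ F)
        (k (true :: x) • (cond true ((-E).map C) (E.map C) *
          ev (A.map C + (X : F[X]) • E.map C)
            ((D - A).map C + (X : F[X]) • (-E).map C) x).trace)) = 0 := h4
    simp only [h6] at h7
    -- the trace of `E G`
    have h8 : (E * G k m A (D - A)).trace = SW m (fun x => k (false :: x) •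
        (cond false (-E) E * ev A (D - A) x).trace) +
        SW m (fun x => k (true :: x) • (cond true (-E) E * ev A (D - A) x).trace) := by
      have e1 : (E * G k m A (D - A)).trace = SW m (fun x =>
          (E * ((k (false :: x) - k (true :: x)) • ev A (D - A) x)).trace) := by
        rw [G]
        exact (map_SW ((Matrix.traceAddMonoidHom ι F).comp (AddMonoidHom.mulLeft E)) m _).symm
      rw [e1]
      rw [grd_SW_add]
      apply cnv_SW_congr
      intro x _
      simp only [cond_false, cond_true]
      exact grd_fin _ _ E _
    rw [h8]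
    exact h7
  ext i j
  have h := key (Matrix.single j i 1)
  rw [Matrix.trace_single_mul] at h
  simpa using h

end Pool.Agent.MP_a57f33_nt.RD
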