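import Pool.Agent.Lib.MP_a57f33_nt.RD.Stm
import Pool.Agent.Lib.MP_a57f33_nt.BZ.P_tw

/-!
[hex] the hexagon relation on 3×3 matrices, from duality and the two-term relation.
-/

namespace Pool.Agent.MP_a57f33_nt.RD

open Pool.Agent.MP_a57f33_nt BZ Matrix

section
variable {R ι : Type} [CommRing R] [Algebra ℚ R] [Fintype ι] [DecidableEq ι]

theorem hex_ev0 (X Y : Matrix ι ι R) : evalM X Y X0 = X := by
  simp [evalM]

theorem hex_ev1 (X Y : Matrix ι ι R) : evalM X Y X1 = Y := by
  simp [evalM]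

theorem hex_comp (X Y : Matrix ι ι R) (s : QX →ₐ[ℚ] QX) (ψ : QX) :
    evalM X Y (s ψ) = evalM (evalM X Y (s X0)) (evalM X Y (s X1)) ψ := by
  have : (evalM X Y).comp s = evalM (evalM X Y (s X0)) (evalM X Y (s X1)) := by
    apply FreeAlgebra.hom_ext
    funext b
    cases b
    · change evalM X Y (s X0) = evalM (evalM X Y (s X0)) (evalM X Y (s X1)) X0
      rw [hex_ev0]
    · change evalM X Y (s X1) = evalM (evalM X Y (s X0)) (evalM X Y (s X1)) X1
      rw [hex_ev1]
  exact AlgHom.congr_fun this ψ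

theorem hex_dual (X Y : Matrix ι ι R) {ψ : QX} (h : ψ ∈ LieX) :
    evalM X Y (dual ψ) = -evalM (-Y) (-X) ψ := by
  refine lie_induction (P := fun ψ => evalM X Y (dual ψ) = -evalM (-Y) (-X) ψ) ?_ ?_ ?_ ?_ ?_ h
  · intro b
    cases b
    · simp [evalM, dual]
    · simp [evalM, dual]
  · simp [dual]
  · intro x y hx hy
    have h1 : dual (x + y) = dual x + dual y := by simp [dual]
    rw [h1, map_add, map_add, hx, hy]
    abel
  · intro r x hx
    have h1 : dual (r • x) = r • dual x := by simp [dual]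
    rw [h1, map_smul, map_smul, hx, smul_neg]
  · intro x y _ _ hx hy
    have h1 : dual (x * y - y * x) = dual y * dual x - dual x * dual y := by simp [dual]
    rw [h1, map_sub, map_sub, map_mul, map_mul, map_mul, map_mul, hx, hy]
    noncomm_ring

theorem hex_trace (X Y : Matrix ι ι R) {ψ : QX} (h : ψ ∈ LieX) :
    (evalM X Y ψ).trace = coeff ψ [false] • X.trace + coeff ψ [true] • Y.trace := by
  refine lie_induction (P := fun ψ => (evalM X Y ψ).trace =
    coeff ψ [false] • X.trace + coeff ψ [true] • Y.trace) ?_ ?_ ?_ ?_ ?_ h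
  · intro b
    cases b
    · simp [coeff_iota, evalM]
    · simp [coeff_iota, evalM]
  · simp [coeff_zero]
  · intro x y hx hy
    rw [map_add, trace_add, hx, hy, coeff_add, coeff_add, add_smul, add_smul]
    abel
  · intro r x hx
    rw [map_smul]
    refine (Matrix.trace_smul r (evalM X Y x)).trans ?_
    rw [hx, coeff_smul, coeff_smul, mul_smul, mul_smul, smul_add]
  · intro x y _ _ _ _
    rw [map_sub, map_mul, map_mul, trace_sub, trace_mul_comm, sub_self, tw_comm, tw_comm,
      zero_smul, zero_smul, add_zero]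

/-- The two-term relation at `(X, -Y)`. -/
theorem hex_two {ψ : QX} (h : ψ ∈ dm0) (X Y Z : Matrix ι ι R) (hz : X + Y + Z = 0) :
    (X * evalM X (-Y) ψ - evalM X (-Y) ψ * X) +
      (Z * evalM Z (-Y) ψ - evalM Z (-Y) ψ * Z) = 0 := by
  have h1 := congrArg (evalM X (-Y)) (two_term h)
  have hZ : Z = -Y - X := by
    have : X + Y + Z - X - Y = -X - Y := by rw [hz]; abel
    rw [show Z = X + Y + Z - X - Y by abel, this]; abel
  rw [map_add, map_sub, map_sub, map_mul, map_mul, map_mul, map_mul, map_sub, hex_ev0, hex_ev1,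
    map_zero, hex_comp X (-Y) shiftX ψ, shiftX_X0, shiftX_X1, map_sub, hex_ev0, hex_ev1, ← hZ] at h1
  exact h1

end

theorem p_hex : HexS := by
  intro hcen ψ hψ hdual
  have hL : ψ ∈ LieX := hψ.1
  -- the algebra maps
  let s1 : QX →ₐ[ℚ] QX := FreeAlgebra.lift ℚ fun b : Bool => if b then -X1 else X0
  let s2 : QX →ₐ[ℚ] QX := FreeAlgebra.lift ℚ fun b : Bool => if b then X0 + X1 else X1
  let s3 : QX →ₐ[ℚ] QX := FreeAlgebra.lift ℚ fun b : Bool => if b then -X0 else -X0 - X1
  have hval : ∀ (R : Type) [CommRing R] [Algebra ℚ R] (A B : Matrix (Fin 3) (Fin 3) R),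
      evalM A B (s1 ψ + s2 ψ + s3 ψ) =
        evalM A (-B) ψ + evalM B (A + B) ψ + evalM (-A - B) (-A) ψ := by
    intro R _ _ A B
    have e10 : s1 X0 = X0 := by simp [s1]
    have e11 : s1 X1 = -X1 := by simp [s1]
    have e20 : s2 X0 = X1 := by simp [s2]
    have e21 : s2 X1 = X0 + X1 := by simp [s2]
    have e30 : s3 X0 = -X0 - X1 := by simp [s3]
    have e31 : s3 X1 = -X0 := by simp [s3]
    rw [map_add, map_add, hex_comp A B s1, hex_comp A B s2, hex_comp A B s3, e10, e11, e20, e21,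
      e30, e31, map_neg, map_add, map_sub, map_neg, hex_ev0, hex_ev1]
  intro R _ _ A B
  rw [← hval R A B]
  refine hcen (s1 ψ + s2 ψ + s3 ψ) ?_ R A B
  intro R _ _ A B
  rw [hval R A B]
  have hanti : ∀ X Y : Matrix (Fin 3) (Fin 3) R, evalM X (-Y) ψ = -evalM Y (-X) ψ := by
    intro X Y
    rw [hdual R X (-Y), hex_dual X (-Y) hL, neg_neg]
  obtain ⟨C, hC⟩ : ∃ C, C = -A - B := ⟨_, rfl⟩
  have hAB : A + B = -C := by rw [hC]; abel
  have hABC : A + B + C = 0 := by rw [hAB]; abel
  rw [← hC, hAB]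
  have t1 := hex_two hψ A B C hABC
  have t2 := hex_two hψ A C B (by rw [← hABC]; abel)
  have t3 := hex_two hψ B A C (by rw [← hABC]; abel)
  rw [hanti C B] at t1
  rw [hanti A C] at t2
  rw [hanti B A] at t3
  have ht : (evalM A (-B) ψ + evalM B (-C) ψ + evalM C (-A) ψ).trace = 0 := by
    rw [trace_add, trace_add, hex_trace _ _ hL, hex_trace _ _ hL, hex_trace _ _ hL, hψ.2.1,
      hψ.2.2.1]
    simp
  generalize evalM A (-B) ψ = p at *
  generalize evalM B (-C) ψ = q at *
  generalize evalM C (-A) ψ = r at *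
  refine ⟨?_, ?_, ht⟩
  · have h1 : A * (p + q + r) - (p + q + r) * A = (A * p - p * A + (C * -q - -q * C)) -
        (A * -r - -r * A + (B * q - q * B)) + ((A + B + C) * q - q * (A + B + C)) := by
      noncomm_ring
    rw [t1, t2, hABC, zero_mul, mul_zero, sub_zero, add_zero] at h1
    exact (sub_eq_zero.mp h1).symm
  · have h1 : B * (p + q + r) - (p + q + r) * B = (A * -r - -r * A + (B * q - q * B)) -
        (B * -p - -p * B + (C * r - r * C)) + ((A + B + C) * r - r * (A + B + C)) := by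
      noncomm_ring
    rw [t2, t3, hABC, zero_mul, mul_zero, sub_zero, add_zero] at h1
    exact (sub_eq_zero.mp h1).symm

end Pool.Agent.MP_a57f33_nt.RD
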