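import Pool.Agent.Lib.MP_a57f33_nt.RD.Stm
import Pool.Agent.Lib.MP_a57f33_nt.BZ.P_cyc
import Pool.Agent.Lib.MP_a57f33_nt.BZ.P_dbl
import Pool.Agent.Lib.MP_a57f33_nt.BZ.P_tw

set_option autoImplicit false

/-!
Piece inv: combinatorial properties of the functional `Dl ψ`.
-/

namespace Pool.Agent.MP_a57f33_nt.RD

open Pool.Agent.MP_a57f33_nt BZ Matrix

theorem inv_not_not (w : List Bool) : (w.map not).map not = w := by
  rw [List.map_map]
  have : (not ∘ not) = id := by
    funext b
    simp
  rw [this, List.map_id]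

theorem inv_dbl_sub (w : List Bool) : ∀ f g : List Bool → ℚ,
    BZ.dbl w (fun t => f t - g t) = BZ.dbl w f - BZ.dbl w g := by
  induction w with
  | nil =>
    intro f g
    change (0 : ℚ) = 0 - 0
    ring
  | cons a w ih =>
    intro f g
    change f (a :: a :: w) - g (a :: a :: w) + BZ.dbl w (fun t => f (a :: t) - g (a :: t)) =
      (f (a :: a :: w) + BZ.dbl w (fun t => f (a :: t))) -
        (g (a :: a :: w) + BZ.dbl w (fun t => g (a :: t)))
    rw [ih (fun t => f (a :: t)) (fun t => g (a :: t))]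
    ring

theorem inv_dbl_not (w : List Bool) : ∀ f : List Bool → ℚ,
    BZ.dbl w (fun t => f (t.map not)) = BZ.dbl (w.map not) f := by
  induction w with
  | nil => intro f; rfl
  | cons a w ih =>
    intro f
    change f ((!a) :: (!a) :: w.map not) + BZ.dbl w (fun t => f ((!a) :: t.map not)) =
      f ((!a) :: (!a) :: w.map not) + BZ.dbl (w.map not) (fun t => f ((!a) :: t))
    rw [ih (fun t => f ((!a) :: t))]

theorem inv_ins_sub (a : Bool) (w : List Bool) : ∀ f g : List Bool → ℚ,
    RD.ins a w (fun t => f t - g t) = RD.ins a w f - RD.ins a w g := by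
  induction w with
  | nil => intro f g; rfl
  | cons c w ih =>
    intro f g
    change f (a :: c :: w) - g (a :: c :: w) + RD.ins a w (fun t => f (c :: t) - g (c :: t)) =
      (f (a :: c :: w) + RD.ins a w (fun t => f (c :: t))) -
        (g (a :: c :: w) + RD.ins a w (fun t => g (c :: t)))
    rw [ih (fun t => f (c :: t)) (fun t => g (c :: t))]
    ring

theorem inv_ins_not (a : Bool) (w : List Bool) : ∀ f : List Bool → ℚ,
    RD.ins a w (fun t => f (t.map not)) = RD.ins (!a) (w.map not) f := by
  induction w with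
  | nil => intro f; rfl
  | cons c w ih =>
    intro f
    change f ((!a) :: (!c) :: w.map not) + RD.ins a w (fun t => f ((!c) :: t.map not)) =
      f ((!a) :: (!c) :: w.map not) + RD.ins (!a) (w.map not) (fun t => f ((!c) :: t))
    rw [ih (fun t => f ((!c) :: t))]

theorem inv_ins_eq (a : Bool) (w : List Bool) : ∀ f : List Bool → ℚ,
    RD.ins a w f = Pool.Agent.MP_a57f33_nt.ins a w f := by
  induction w with
  | nil => intro f; rfl
  | cons c w ih =>
    intro f
    change f (a :: c :: w) + RD.ins a w (fun t => f (c :: t)) =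
      f (a :: c :: w) + Pool.Agent.MP_a57f33_nt.ins a w (fun t => f (c :: t))
    rw [ih (fun t => f (c :: t))]

theorem inv_lie {φ : QX} (h : φ ∈ LieX) (h0 : ∀ a : Bool, coeff φ [a] = 0) (a : Bool)
    (w : List Bool) : RD.ins a w (coeff φ) = 0 := by
  by_cases hw : w = []
  · rw [hw]
    exact h0 a
  · rw [inv_ins_eq]
    exact (lie_ins h).2 a w hw

theorem inv_ph1 {ψ : QX} (h : ψ ∈ dm0) : ph1 ψ ∈ LieX ∧ ∀ a : Bool, coeff (ph1 ψ) [a] = 0 := by
  refine ⟨tw_rot_mem h.1, fun a => ?_⟩
  have h1 := tw_lin rot a h.1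
  rw [h.2.1, h.2.2.1] at h1
  unfold ph1
  rw [h1]
  ring

theorem inv_sgn {ψ : QX} (h : ψ ∈ dm0) : sgn ψ ∈ LieX ∧ ∀ a : Bool, coeff (sgn ψ) [a] = 0 := by
  refine ⟨tw_sgn_mem h.1, fun a => ?_⟩
  have h1 := tw_lin sgn a h.1
  rw [h.2.1, h.2.2.1] at h1
  rw [h1]
  ring

theorem inv_ph0 {ψ : QX} (h : ψ ∈ dm0) : ph0 ψ ∈ LieX ∧ ∀ a : Bool, coeff (ph0 ψ) [a] = 0 := by
  refine ⟨sub_mem (inv_ph1 h).1 (inv_sgn h).1, fun a => ?_⟩
  unfold ph0
  rw [coeff_sub, (inv_sgn h).2 a, sub_zero]
  exact (inv_ph1 h).2 a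

theorem inv_K_ins {ψ : QX} (h : ψ ∈ dm0) (b a : Bool) (w : List Bool) :
    RD.ins a w (fun t => K ψ (b :: t)) = 0 := by
  cases b with
  | false => exact inv_lie (inv_ph0 h).1 (inv_ph0 h).2 a w
  | true => exact inv_lie (inv_ph1 h).1 (inv_ph1 h).2 a w

theorem inv_K_rev {ψ : QX} (h : ψ ∈ dm0) (w : List Bool) :
    K ψ w.reverse = (-1) ^ w.length * K ψ w := by
  cases w with
  | nil =>
    change (0 : ℚ) = (-1) ^ 0 * 0
    ring
  | cons a v =>
    have h1 : (a :: v).reverse = v.reverse ++ [a] := List.reverse_cons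
    rw [h1, p_cyc ψ h a v.reverse, List.length_cons]
    cases a with
    | false =>
      change coeff (ph0 ψ) v.reverse = _ * coeff (ph0 ψ) v
      exact lie_reverse (inv_ph0 h).1 v
    | true =>
      change coeff (ph1 ψ) v.reverse = _ * coeff (ph1 ψ) v
      exact lie_reverse (inv_ph1 h).1 v

theorem inv_rep_not (N : ℕ) (b : Bool) :
    (List.replicate N b).map not = List.replicate N (!b) := List.map_replicate

theorem inv_K_dbl {ψ : QX} (h : ψ ∈ dm0) (C : List Bool) :
    BZ.dbl (C.map not) (K ψ) = BZ.dbl C (K ψ) := by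
  have hD := p_dbl ψ h (p_cyc ψ h) C.length
  have h1 := hD C rfl
  have h2 := hD (C.map not) (List.length_map _)
  rw [h1, h2]
  have e : (C.map not = List.replicate C.length false ∨ C.map not = List.replicate C.length true) ↔
      (C = List.replicate C.length false ∨ C = List.replicate C.length true) := by
    have key : ∀ b : Bool, C.map not = List.replicate C.length b ↔
        C = List.replicate C.length (!b) := by
      intro b
      constructor
      · intro hc
        have h3 := congrArg (List.map not) hc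
        rw [inv_not_not, inv_rep_not] at h3
        exact h3
      · intro hc
        have h3 := congrArg (List.map not) hc
        rw [inv_rep_not, Bool.not_not] at h3
        exact h3
    rw [key false, key true]
    exact or_comm
  by_cases hc : C = List.replicate C.length false ∨ C = List.replicate C.length true
  · rw [if_pos hc, if_pos (e.2 hc)]
  · rw [if_neg hc, if_neg (fun h' => hc (e.1 h'))]

theorem p_inv : InvS := by
  intro ψ h
  have hc := p_cyc ψ h
  refine ⟨?_, ?_, ?_, ?_, ?_⟩
  · intro a w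
    unfold Dl
    have e : (w ++ [a]).map not = w.map not ++ [!a] := by
      rw [List.map_append]
      rfl
    rw [e, hc a w, hc (!a) (w.map not)]
    rfl
  · intro C
    have e : BZ.dbl C (Dl ψ) = BZ.dbl C (K ψ) - BZ.dbl C (fun t => K ψ (t.map not)) :=
      inv_dbl_sub C (K ψ) (fun t => K ψ (t.map not))
    rw [e, inv_dbl_not C (K ψ), inv_K_dbl h C, sub_self]
  · intro b a w
    have e : RD.ins a w (fun t => Dl ψ (b :: t)) =
        RD.ins a w (fun t => K ψ (b :: t)) - RD.ins a w (fun t => K ψ ((!b) :: t.map not)) :=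
      inv_ins_sub a w (fun t => K ψ (b :: t)) (fun t => K ψ ((!b) :: t.map not))
    have e2 := inv_ins_not a w (fun t => K ψ ((!b) :: t))
    rw [e, e2, inv_K_ins h b a w, inv_K_ins h (!b) (!a) (w.map not), sub_self]
  · intro w
    unfold Dl
    rw [List.map_reverse, inv_K_rev h w, inv_K_rev h (w.map not), List.length_map]
    ring
  · intro w
    unfold Dl
    rw [inv_not_not]
    ring

end Pool.Agent.MP_a57f33_nt.RD
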