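import Pool.Agent.Lib.MP_a57f33_nt.RD.Stm
import Pool.Agent.Lib.MP_a57f33_nt.BZ.P_cnv

/-!
Piece [mom]: the trace functional of `(A, U V - A)` depends only on the matrices `V A^i U`.
-/

namespace Pool.Agent.MP_a57f33_nt.RD

open Pool.Agent.MP_a57f33_nt BZ Matrix

/-- Coefficients after the substitution `x₀ ↦ a`, `x₁ ↦ c - a`. -/
def mom_E : List Bool → (List Bool → ℚ) → ℚ
  | [], k => k []
  | false :: u, k => mom_E u (fun w => k (false :: w) - k (true :: w))
  | true :: u, k => mom_E u (fun w => k (true :: w))

theorem mom_SW_add {M : Type} [AddCommMonoid M] : ∀ (n : ℕ) (f g : List Bool → M),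
    SW n (fun w => f w + g w) = SW n f + SW n g
  | 0, _, _ => rfl
  | n + 1, f, g => by
    have h0 := mom_SW_add n (fun w => f (false :: w)) (fun w => g (false :: w))
    have h1 := mom_SW_add n (fun w => f (true :: w)) (fun w => g (true :: w))
    have e : SW (n + 1) (fun w => f w + g w) = SW n (fun w => f (false :: w) + g (false :: w)) +
      SW n (fun w => f (true :: w) + g (true :: w)) := rfl
    rw [e, h0, h1]
    exact add_add_add_comm _ _ _ _

theorem mom_expand {S : Type} [Ring S] [Algebra ℚ S] (A C : S) :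
    ∀ (n : ℕ) (k : List Bool → ℚ),
      SW n (fun w => k w • ev A (C - A) w) = SW n (fun u => mom_E u k • ev A C u)
  | 0, k => rfl
  | n + 1, k => by
    have h0 := mom_expand A C n (fun w => k (false :: w) - k (true :: w))
    have h1 := mom_expand A C n (fun w => k (true :: w))
    have e1 : SW (n + 1) (fun w => k w • ev A (C - A) w) =
        SW n (fun w => k (false :: w) • ev A (C - A) (false :: w)) +
        SW n (fun w => k (true :: w) • ev A (C - A) (true :: w)) := rfl
    have e2 : SW (n + 1) (fun u => mom_E u k • ev A C u) =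
        SW n (fun u => mom_E u (fun w => k (false :: w) - k (true :: w)) •
          ev A C (false :: u)) +
        SW n (fun u => mom_E u (fun w => k (true :: w)) • ev A C (true :: u)) := rfl
    have m1 := cnv_SW_map (AddMonoidHom.mulLeft A) n
      (fun w => (k (false :: w) - k (true :: w)) • ev A (C - A) w)
    have m2 := cnv_SW_map (AddMonoidHom.mulLeft C) n
      (fun w => k (true :: w) • ev A (C - A) w)
    have m3 := cnv_SW_map (AddMonoidHom.mulLeft A) n
      (fun u => mom_E u (fun w => k (false :: w) - k (true :: w)) • ev A C u)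
    have m4 := cnv_SW_map (AddMonoidHom.mulLeft C) n
      (fun u => mom_E u (fun w => k (true :: w)) • ev A C u)
    simp only [AddMonoidHom.coe_mulLeft, mul_smul_comm] at m1 m2 m3 m4
    rw [e1, e2]
    simp only [cnv_ev_cons, cond_false, cond_true]
    rw [← m3, ← m4, ← h0, ← h1, m1, m2, ← mom_SW_add, ← mom_SW_add]
    refine cnv_SW_congr n fun w _ => ?_
    rw [sub_smul, sub_mul, smul_sub]
    abel

theorem mom_T {R ι : Type} [CommRing R] [Algebra ℚ R] [Fintype ι] [DecidableEq ι]
    (k : List Bool → ℚ) (n : ℕ) (A C : Matrix ι ι R) :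
    T k n A (C - A) = SW n (fun u => mom_E u k • (ev A C u).trace) := by
  have h := congrArg Matrix.trace (mom_expand A C n k)
  have h1 := cnv_SW_map (Matrix.traceAddMonoidHom ι R) n (fun w => k w • ev A (C - A) w)
  have h2 := cnv_SW_map (Matrix.traceAddMonoidHom ι R) n (fun u => mom_E u k • ev A C u)
  simp only [Matrix.traceAddMonoidHom_apply, Matrix.trace_smul] at h1 h2
  unfold T
  rw [← h1, ← h2, h]

theorem mom_word {R ι κ ρ : Type} [CommRing R] [Fintype ι] [DecidableEq ι]
    [Fintype κ] [DecidableEq κ] [Fintype ρ] [DecidableEq ρ]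
    (A : Matrix ι ι R) (U : Matrix ι ρ R) (V : Matrix ρ ι R)
    (A₂ : Matrix κ κ R) (U₂ : Matrix κ ρ R) (V₂ : Matrix ρ κ R)
    (h : ∀ i : ℕ, V * A ^ i * U = V₂ * A₂ ^ i * U₂) : ∀ (w : List Bool) (i : ℕ),
    V * (A ^ i * ev A (U * V) w) * U = V₂ * (A₂ ^ i * ev A₂ (U₂ * V₂) w) * U₂
  | [], i => by
    have e : ∀ {ι' : Type} [Fintype ι'] [DecidableEq ι'] (X Y : Matrix ι' ι' R),
        ev X Y [] = 1 := fun X Y => rfl
    rw [e, e, mul_one, mul_one]
    exact h i
  | false :: w, i => by
    have ih := mom_word A U V A₂ U₂ V₂ h w (i + 1)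
    rw [cnv_ev_cons, cnv_ev_cons, cond_false, cond_false, ← mul_assoc (A ^ i), ← pow_succ,
      ← mul_assoc (A₂ ^ i), ← pow_succ]
    exact ih
  | true :: w, i => by
    have ih := mom_word A U V A₂ U₂ V₂ h w 0
    rw [pow_zero, pow_zero, one_mul, one_mul] at ih
    rw [cnv_ev_cons, cnv_ev_cons, cond_true, cond_true]
    have e1 : V * (A ^ i * (U * V * ev A (U * V) w)) * U =
        (V * A ^ i * U) * (V * ev A (U * V) w * U) := by
      simp only [Matrix.mul_assoc]
    have e2 : V₂ * (A₂ ^ i * (U₂ * V₂ * ev A₂ (U₂ * V₂) w)) * U₂ =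
        (V₂ * A₂ ^ i * U₂) * (V₂ * ev A₂ (U₂ * V₂) w * U₂) := by
      simp only [Matrix.mul_assoc]
    rw [e1, e2, h i, ih]

theorem mom_tr {R ι ρ : Type} [CommRing R] [Fintype ι] [DecidableEq ι] [Fintype ρ]
    [DecidableEq ρ] (A : Matrix ι ι R) (U : Matrix ι ρ R) (V : Matrix ρ ι R)
    (p q : List Bool) :
    (ev A (U * V) (p ++ true :: q)).trace = (V * (A ^ 0 * ev A (U * V) (q ++ p)) * U).trace := by
  rw [cnv_ev_append, cnv_ev_cons, cond_true, cnv_ev_append, pow_zero, one_mul]
  rw [Matrix.trace_mul_comm, ← Matrix.mul_assoc V, Matrix.trace_mul_comm _ U]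
  have e : U * V * ev A (U * V) q * ev A (U * V) p = U * (V * ev A (U * V) q * ev A (U * V) p) := by
    simp only [Matrix.mul_assoc]
  rw [e]

theorem mom_cases (u : List Bool) : (∃ p q, u = p ++ true :: q) ∨
    u = List.replicate u.length false := by
  induction u with
  | nil => exact Or.inr rfl
  | cons a u ih =>
    cases a with
    | true => exact Or.inl ⟨[], u, rfl⟩
    | false =>
      rcases ih with ⟨p, q, h⟩ | h
      · exact Or.inl ⟨false :: p, q, by rw [h]; rfl⟩
      · refine Or.inr ?_
        rw [List.length_cons, List.replicate_succ, ← h]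

theorem mom_SW_const {M : Type} [AddCommMonoid M] : ∀ n : ℕ,
    SW n (fun _ : List Bool => (0 : M)) = 0
  | 0 => rfl
  | n + 1 => by
    have e : SW (n + 1) (fun _ : List Bool => (0 : M)) = SW n (fun _ => 0) + SW n (fun _ => 0) :=
      rfl
    rw [e, mom_SW_const n, add_zero]

theorem mom_SW_zero {M : Type} [AddCommMonoid M] (n : ℕ) {f : List Bool → M}
    (h : ∀ w, w.length = n → f w = 0) : SW n f = 0 := by
  rw [cnv_SW_congr n (g := fun _ => 0) h]
  exact mom_SW_const n

theorem mom_single : ∀ (n : ℕ) (f : List Bool → ℚ),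
    SW n (fun u => if u = List.replicate n false then f u else 0) = f (List.replicate n false)
  | 0, f => by
    change (if ([] : List Bool) = [] then f [] else 0) = f []
    rw [if_pos rfl]
  | n + 1, f => by
    have e : SW (n + 1) (fun u => if u = List.replicate (n + 1) false then f u else 0) =
        SW n (fun u => if false :: u = List.replicate (n + 1) false then f (false :: u) else 0) +
        SW n (fun u => if true :: u = List.replicate (n + 1) false then f (true :: u) else 0) :=
      rfl
    have e2 : SW n (fun u => if true :: u = List.replicate (n + 1) false then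
        f (true :: u) else 0) = 0 := by
      refine mom_SW_zero n fun w _ => ?_
      rw [if_neg]
      rw [List.replicate_succ]
      simp
    have e1 : SW n (fun u => if false :: u = List.replicate (n + 1) false then
        f (false :: u) else 0) =
        SW n (fun u => if u = List.replicate n false then f (false :: u) else 0) := by
      refine cnv_SW_congr n fun w _ => ?_
      rw [List.replicate_succ]
      simp
    rw [e, e1, e2, add_zero, mom_single n (fun u => f (false :: u)), List.replicate_succ]

/-- The coefficient of the word without the letter `1`. -/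
theorem mom_rep {k : List Bool → ℚ} (hk : Tw k) {n : ℕ} (hn : 1 ≤ n) :
    mom_E (List.replicate n false) k = 0 := by
  have h1 := hk.tr ℚ (Fin 1) n 0 0 1 (-1)
  have h2 : T k n (0 : Matrix (Fin 1) (Fin 1) ℚ) 0 = 0 := by
    unfold T
    refine mom_SW_zero n fun w hw => ?_
    cases w with
    | nil =>
      rw [List.length_nil] at hw
      omega
    | cons a w =>
      rw [cnv_ev_cons]
      cases a <;> simp
  have h3 := mom_T k n (1 : Matrix (Fin 1) (Fin 1) ℚ) 0
  have h4 : SW n (fun u => mom_E u k • (ev (1 : Matrix (Fin 1) (Fin 1) ℚ) 0 u).trace) =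
      mom_E (List.replicate n false) k := by
    have h5 : SW n (fun u => mom_E u k • (ev (1 : Matrix (Fin 1) (Fin 1) ℚ) 0 u).trace) =
        SW n (fun u => if u = List.replicate n false then mom_E u k else 0) := by
      refine cnv_SW_congr n fun u hu => ?_
      rcases mom_cases u with ⟨p, q, h6⟩ | h6
      · have h7 : u ≠ List.replicate n false := by
          intro h8
          have h9 : true ∈ List.replicate n false := by
            rw [← h8, h6]
            simp
          have h10 := List.eq_of_mem_replicate h9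
          exact absurd h10 (by decide)
        rw [if_neg h7, h6, cnv_ev_append, cnv_ev_cons, cond_true, zero_mul, mul_zero,
          Matrix.trace_zero, smul_zero]
      · rw [hu] at h6
        rw [if_pos h6, h6, cnv_ev_replicate_false, one_pow, Matrix.trace_one]
        simp
    rw [h5]
    exact mom_single n (fun u => mom_E u k)
  rw [← h4, ← h3, ← h2, ← h1]
  congr 1
  · rw [one_smul, zero_add]
  · rw [neg_smul, one_smul, zero_add, zero_sub]

theorem p_mom : MomS := by
  intro R ι κ ρ _ _ _ _ _ _ _ _ k hk n hn A U V A₂ U₂ V₂ h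
  rw [mom_T k n A (U * V), mom_T k n A₂ (U₂ * V₂)]
  refine cnv_SW_congr n fun u hu => ?_
  rcases mom_cases u with ⟨p, q, h1⟩ | h1
  · rw [h1, mom_tr, mom_tr, mom_word A U V A₂ U₂ V₂ h]
  · rw [h1, hu, mom_rep hk hn, zero_smul, zero_smul]

end Pool.Agent.MP_a57f33_nt.RD
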