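import Pool.Agent.Lib.MP_a57f33_nt.RD.Stm

/-!
# Rank two duality: the coefficients of the transfer series
-/

namespace Pool.Agent.MP_a57f33_nt.RD

open Pool.Agent.MP_a57f33_nt BZ Matrix

/-- The coefficient of `X^(i+1)` in an entry of the transfer series. -/
theorem msr_coeff {R ι ρ : Type} [CommRing R] [Fintype ι] [DecidableEq ι] [Fintype ρ]
    [DecidableEq ρ] (A : Matrix ι ι R) (U : Matrix ι ρ R) (V : Matrix ρ ι R) (n : ℕ) (p q : ρ) :
    PowerSeries.coeff (n + 1) (ser A U V p q) = (V * A ^ n * U) p q := by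
  have h1 : PowerSeries.coeff (n + 1) ((1 : Matrix ρ ρ (PowerSeries R)) p q) = 0 := by
    by_cases hpq : p = q
    · subst hpq
      rw [Matrix.one_apply_eq, PowerSeries.coeff_one, if_neg (Nat.succ_ne_zero n)]
    · rw [Matrix.one_apply_ne hpq, map_zero]
  have h2 : ser A U V p q = (1 : Matrix ρ ρ (PowerSeries R)) p q +
      (PowerSeries.X : PowerSeries R) * (sC V * rs A * sC U) p q := rfl
  have h3 : PowerSeries.coeff n ((sC V * rs A * sC U) p q) = (V * A ^ n * U) p q := by
    rw [Matrix.mul_apply, Matrix.mul_apply, map_sum]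
    refine Finset.sum_congr rfl fun j _ => ?_
    have h4 : sC U j q = PowerSeries.C (U j q) := rfl
    rw [h4, PowerSeries.coeff_mul_C, Matrix.mul_apply, Matrix.mul_apply, map_sum]
    congr 1
    refine Finset.sum_congr rfl fun l _ => ?_
    have h5 : sC V p l = PowerSeries.C (V p l) := rfl
    have h6 : rs A l j = PowerSeries.mk fun n => (A ^ n) l j := rfl
    rw [h5, h6, PowerSeries.coeff_C_mul, PowerSeries.coeff_mk]
  rw [h2, map_add, h1, zero_add, PowerSeries.coeff_succ_X_mul, h3]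

theorem p_msr : MsrS := by
  intro R ι κ ρ _ _ _ _ _ _ _ A U V A₂ U₂ V₂ h i
  ext p q
  rw [← msr_coeff A U V i p q, ← msr_coeff A₂ U₂ V₂ i p q, h]

end Pool.Agent.MP_a57f33_nt.RD
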