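import Pool.Agent.Lib.MP_a57f33_nt.RD.Stm
import Pool.Agent.Lib.MP_a57f33_nt.BZ.P_cnv

/-!
Piece [pair]: rotation average and insertion identities.
-/

namespace Pool.Agent.MP_a57f33_nt.RD

open Pool.Agent.MP_a57f33_nt BZ Matrix

/-- insertions after the letters -/
theorem pair_after (a : Bool) : ∀ (w : List Bool) (b : Bool) (f : List Bool → ℚ),
    cnv_pos (b :: w) (fun u j v => f (u ++ j :: a :: v)) = RD.ins a w (fun t => f (b :: t))
  | [], b, f => by simp [cnv_pos, RD.ins]
  | c :: w, b, f => by
    have ih := pair_after a w c (fun t => f (b :: t))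
    have e1 : cnv_pos (b :: c :: w) (fun u j v => f (u ++ j :: a :: v)) =
        f (b :: a :: c :: w) + cnv_pos (c :: w) (fun u j v => f (b :: (u ++ j :: a :: v))) := rfl
    rw [e1, ih]
    rfl

/-- insertions before the letters -/
theorem pair_before (a : Bool) : ∀ (w : List Bool) (f : List Bool → ℚ),
    cnv_pos w (fun u j v => f (u ++ a :: j :: v)) + f (w ++ [a]) = RD.ins a w f
  | [], f => by simp [cnv_pos, RD.ins]
  | c :: w, f => by
    have ih := pair_before a w (fun t => f (c :: t))
    have e1 : cnv_pos (c :: w) (fun u j v => f (u ++ a :: j :: v)) =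
        f (a :: c :: w) + cnv_pos w (fun u j v => f (c :: (u ++ a :: j :: v))) := rfl
    have e2 : RD.ins a (c :: w) f = f (a :: c :: w) + RD.ins a w (fun t => f (c :: t)) := rfl
    rw [e1, e2, ← ih, add_assoc]
    rfl

theorem pair_dbl : ∀ (w : List Bool) (f : List Bool → ℚ),
    cnv_pos w (fun u j v => f (u ++ j :: j :: v)) = BZ.dbl w f
  | [], f => rfl
  | c :: w, f => by
    have ih := pair_dbl w (fun t => f (c :: t))
    have e1 : cnv_pos (c :: w) (fun u j v => f (u ++ j :: j :: v)) =
        f (c :: c :: w) + cnv_pos w (fun u j v => f (c :: (u ++ j :: j :: v))) := rfl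
    rw [e1, ih]
    rfl

theorem pair_pos_add : ∀ (w : List Bool) (g g' : List Bool → Bool → List Bool → ℚ),
    cnv_pos w g + cnv_pos w g' = cnv_pos w (fun u j v => g u j v + g' u j v)
  | [], _, _ => by simp [cnv_pos]
  | a :: w, g, g' => by
    have ih := pair_pos_add w (fun u j v => g (a :: u) j v) (fun u j v => g' (a :: u) j v)
    simp only [cnv_pos]
    rw [← ih]
    ring

theorem pair_pos_smul {M : Type} [AddCommGroup M] [Module ℚ M] : ∀ (w : List Bool)
    (g : List Bool → Bool → List Bool → ℚ) (F : List Bool → M),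
    cnv_pos w g • F w = cnv_pos w (fun u j v => g u j v • F (u ++ j :: v))
  | [], g, F => by simp [cnv_pos]
  | a :: w, g, F => by
    have ih := pair_pos_smul w (fun u j v => g (a :: u) j v) (fun t => F (a :: t))
    simp only [cnv_pos, add_smul, List.nil_append, List.cons_append]
    rw [ih]

theorem pair_E {k : List Bool → ℚ} (hk : Inv k) (b : Bool) (w : List Bool) :
    cnv_pos (b :: w) (fun u _ v => k (u ++ false :: true :: v)) = 0 := by
  have hA : cnv_pos (b :: w) (fun u j v => k (u ++ j :: true :: v)) = 0 := by
    rw [pair_after]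
    exact hk.ins b true w
  have hB : cnv_pos (b :: w) (fun u j v => k (u ++ false :: j :: v)) = 0 := by
    have e1 : cnv_pos (b :: w) (fun u j v => k (u ++ false :: j :: v)) =
        k (false :: b :: w) + cnv_pos w (fun u j v => k (b :: (u ++ false :: j :: v))) := rfl
    have h1 := pair_before false w (fun t => k (b :: t))
    rw [hk.ins b false w] at h1
    have h2 : k (b :: (w ++ [false])) = k (false :: b :: w) := hk.cyc false (b :: w)
    rw [e1, ← h2, add_comm]
    exact h1
  have hD : cnv_pos (b :: w) (fun u j v => k (u ++ j :: j :: v)) = 0 := by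
    rw [pair_dbl]
    exact hk.dbl (b :: w)
  have h3 : cnv_pos (b :: w) (fun u _ v => k (u ++ false :: true :: v)) +
      cnv_pos (b :: w) (fun u j v => k (u ++ j :: j :: v)) =
      cnv_pos (b :: w) (fun u j v => k (u ++ j :: true :: v)) +
      cnv_pos (b :: w) (fun u j v => k (u ++ false :: j :: v)) := by
    rw [pair_pos_add, pair_pos_add]
    refine cnv_pos_congr _ fun u j v => ?_
    cases j
    · rfl
    · exact add_comm _ _
  rw [hA, hB, hD, add_zero, add_zero] at h3
  exact h3

theorem p_pair : PairS := by
  intro R ι _ _ _ _ k hk m X Y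
  have h0 : SW m (fun w => k (false :: true :: w) • ((X + Y) * ev X Y w).trace) =
      SW (m + 1) (fun u => k (false :: true :: u.tail) • (ev X Y u).trace) := by
    have h1 : ∀ f g : List Bool → R, SW m (fun w => f w + g w) = SW m f + SW m g := by
      intro f g
      have h2 := cnv_SW_sum (M := R) (Finset.univ : Finset Bool) m
        (fun b w => cond b (f w) (g w))
      simpa using h2
    have h2 : (fun w : List Bool => k (false :: true :: w) • ((X + Y) * ev X Y w).trace) =
        fun w => k (false :: true :: w) • (ev X Y (false :: w)).trace +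
          k (false :: true :: w) • (ev X Y (true :: w)).trace := by
      funext w
      rw [← smul_add, cnv_ev_cons, cnv_ev_cons, ← Matrix.trace_add, ← Matrix.add_mul]
      rfl
    rw [h2, h1]
    rfl
  rw [h0]
  have h1 := cnv_cyc_sum (m + 1) (fun u => k (false :: true :: u.tail) • (ev X Y u).trace)
  have h2 : SW (m + 1) (fun w => cnv_pos w (fun u j v =>
      k (false :: true :: (j :: (v ++ u)).tail) • (ev X Y (j :: (v ++ u))).trace)) = 0 := by
    have h3 : ∀ w : List Bool, w.length = m + 1 → cnv_pos w (fun u j v =>
        k (false :: true :: (j :: (v ++ u)).tail) • (ev X Y (j :: (v ++ u))).trace) = 0 := by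
      intro w hw
      have h4 : cnv_pos w (fun u j v =>
          k (false :: true :: (j :: (v ++ u)).tail) • (ev X Y (j :: (v ++ u))).trace) =
          cnv_pos w (fun u j v => k (u ++ false :: true :: v) • (ev X Y (u ++ j :: v)).trace) := by
        refine cnv_pos_congr _ fun u j v => ?_
        have e1 : k (false :: true :: (j :: (v ++ u)).tail) = k (u ++ false :: true :: v) :=
          cnv_cyc_append hk.cyc (false :: true :: v) u
        have e2 : (ev X Y (j :: (v ++ u))).trace = (ev X Y (u ++ j :: v)).trace := by
          have e3 : j :: (v ++ u) = (j :: v) ++ u := rfl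
          rw [e3, cnv_ev_append, cnv_ev_append, Matrix.trace_mul_comm]
        rw [e1, e2]
      rw [h4, ← pair_pos_smul w (fun u _ v => k (u ++ false :: true :: v))
        (fun w => (ev X Y w).trace)]
      rcases w with _ | ⟨b, w⟩
      · simp at hw
      · rw [pair_E hk b w, zero_smul]
    rw [cnv_SW_congr (m + 1) h3]
    have h5 := cnv_SW_map (0 : R →+ R) (m + 1) (fun _ => (0 : R))
    simpa using h5.symm
  rw [h2] at h1
  have h6 : ((m + 1 : ℕ) : ℚ) • SW (m + 1)
      (fun u => k (false :: true :: u.tail) • (ev X Y u).trace) = 0 := by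
    rw [Nat.cast_smul_eq_nsmul]
    exact h1.symm
  rcases smul_eq_zero.1 h6 with h7 | h7
  · exact absurd h7 (by positivity)
  · exact h7

end Pool.Agent.MP_a57f33_nt.RD
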