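import Pool.Agent.Lib.MP_a57f33_nt.RD.Stm

/-!
Piece [rs]: the resolvent `(1 - X A)⁻¹` as a matrix of power series.
-/

namespace Pool.Agent.MP_a57f33_nt.RD

open Pool.Agent.MP_a57f33_nt BZ Matrix

theorem rs_left {R ι : Type} [CommRing R] [Fintype ι] [DecidableEq ι] (A : Matrix ι ι R) :
    ((PowerSeries.X : PowerSeries R) • sC A) * rs A = rs A - 1 := by
  ext i j n
  rw [Matrix.mul_apply, map_sum, Matrix.sub_apply, map_sub]
  cases n with
  | zero =>
    have h0 : ∀ k, PowerSeries.coeff (R := R) 0
        (((PowerSeries.X : PowerSeries R) • sC A) i k * rs A k j) = 0 := by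
      intro k
      simp [sC, Matrix.smul_apply]
    rw [Finset.sum_eq_zero fun k _ => h0 k]
    simp only [rs, Matrix.of_apply, PowerSeries.coeff_mk, pow_zero, Matrix.one_apply]
    split_ifs with h
    · simp
    · simp
  | succ n =>
    have h1 : ∀ k, PowerSeries.coeff (R := R) (n + 1)
        (((PowerSeries.X : PowerSeries R) • sC A) i k * rs A k j) = A i k * (A ^ n) k j := by
      intro k
      simp only [sC, rs, Matrix.smul_apply, Matrix.map_apply, Matrix.of_apply, smul_eq_mul]
      rw [mul_assoc, PowerSeries.coeff_succ_X_mul, PowerSeries.coeff_C_mul, PowerSeries.coeff_mk]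
    rw [Finset.sum_congr rfl fun k _ => h1 k, ← Matrix.mul_apply, ← pow_succ']
    simp only [rs, Matrix.of_apply, PowerSeries.coeff_mk, Matrix.one_apply]
    split_ifs with h
    · simp [PowerSeries.coeff_one]
    · simp

theorem rs_right {R ι : Type} [CommRing R] [Fintype ι] [DecidableEq ι] (A : Matrix ι ι R) :
    rs A * ((PowerSeries.X : PowerSeries R) • sC A) = rs A - 1 := by
  ext i j n
  rw [Matrix.mul_apply, map_sum, Matrix.sub_apply, map_sub]
  cases n with
  | zero =>
    have h0 : ∀ k, PowerSeries.coeff (R := R) 0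
        (rs A i k * ((PowerSeries.X : PowerSeries R) • sC A) k j) = 0 := by
      intro k
      simp [sC, Matrix.smul_apply]
    rw [Finset.sum_eq_zero fun k _ => h0 k]
    simp only [rs, Matrix.of_apply, PowerSeries.coeff_mk, pow_zero, Matrix.one_apply]
    split_ifs with h
    · simp
    · simp
  | succ n =>
    have h1 : ∀ k, PowerSeries.coeff (R := R) (n + 1)
        (rs A i k * ((PowerSeries.X : PowerSeries R) • sC A) k j) = (A ^ n) i k * A k j := by
      intro k
      simp only [sC, rs, Matrix.smul_apply, Matrix.map_apply, Matrix.of_apply, smul_eq_mul]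
      rw [mul_comm, mul_assoc, PowerSeries.coeff_succ_X_mul, PowerSeries.coeff_C_mul,
        PowerSeries.coeff_mk, mul_comm]
    rw [Finset.sum_congr rfl fun k _ => h1 k, ← Matrix.mul_apply, ← pow_succ]
    simp only [rs, Matrix.of_apply, PowerSeries.coeff_mk, Matrix.one_apply]
    split_ifs with h
    · simp [PowerSeries.coeff_one]
    · simp

theorem p_rs : RsS := by
  intro R ι _ _ _ A
  constructor
  · rw [sub_mul, one_mul, rs_left, sub_sub_cancel]
  · rw [mul_sub, mul_one, rs_right, sub_sub_cancel]

end Pool.Agent.MP_a57f33_nt.RD
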