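import Pool.Agent.Lib.MP_a57f33_nt.RD.Stm

/-!
Piece [spl]: `det (1 - X A)` splits over an algebraically closed field.
-/

namespace Pool.Agent.MP_a57f33_nt.RD

open Pool.Agent.MP_a57f33_nt BZ Matrix Polynomial

theorem spl_rev {F : Type} [Field F] (l : List F) :
    ((l.map fun a => (X - C a : F[X])).prod).reverse = (l.map fun a => (1 - C a * X : F[X])).prod := by
  induction l with
  | nil =>
    rw [List.map_nil, List.map_nil, List.prod_nil, ← C_1, reverse_C]
  | cons a l ih =>
    rw [List.map_cons, List.prod_cons, reverse_mul_of_domain, ih, List.map_cons, List.prod_cons]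
    congr 1
    have h1 : (X - C a : F[X]) = X + C (-a) := by rw [C_neg, sub_eq_add_neg]
    have hd : (X + C (-a) : F[X]).natDegree = 1 := natDegree_X_add_C _
    ext n
    rw [h1, reverse, coeff_reflect, hd]
    rcases n with _ | _ | n
    · rw [revAt_le (by omega)]
      simp [coeff_X, coeff_C]
    · rw [revAt_le (by omega)]
      simp [coeff_X, coeff_one]
    · rw [revAt_eq_self_of_lt (by omega)]
      simp [coeff_X, coeff_one]

theorem spl_det {F ι : Type} [Field F] [Fintype ι] [DecidableEq ι] (A : Matrix ι ι F) :
    (1 - (PowerSeries.X : PowerSeries F) • sC A).det =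
      (Polynomial.coeToPowerSeries.ringHom (R := F)) A.charpolyRev := by
  rw [Matrix.charpolyRev, RingHom.map_det]
  congr 1
  ext1 i j
  simp only [Matrix.sub_apply, Matrix.smul_apply, sC, Matrix.map_apply, RingHom.mapMatrix_apply,
    smul_eq_mul, map_sub, map_mul, Polynomial.coeToPowerSeries.ringHom_apply, Polynomial.coe_X,
    Polynomial.coe_C, Matrix.one_apply]
  split_ifs <;> simp

theorem p_spl : SplS := by
  intro F ι _ _ _ _ A
  have hs : A.charpoly.Splits := IsAlgClosed.splits _
  refine ⟨A.charpoly.roots.toList, ?_, ?_⟩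
  · rw [Multiset.length_toList, ← Matrix.charpoly_natDegree_eq_dim A]
    exact (splits_iff_card_roots.1 hs)
  · have h1 : A.charpoly = (A.charpoly.roots.toList.map fun a => (X - C a : F[X])).prod := by
      have h2 := hs.eq_prod_roots_of_monic (Matrix.charpoly_monic A)
      conv_lhs => rw [h2]
      rw [← Multiset.prod_coe, ← Multiset.map_coe, Multiset.coe_toList]
    rw [spl_det, ← Matrix.reverse_charpoly]
    conv_lhs => rw [h1, spl_rev]
    rw [map_list_prod, List.map_map]
    congr 1
    apply List.map_congr_left
    intro a _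
    simp [Function.comp]

end Pool.Agent.MP_a57f33_nt.RD
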