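import Pool.Agent.Lib.MP_a57f33_nt.RD.Stm
import Pool.Agent.Lib.MP_a57f33_nt.BZ.P_cnv
import Pool.Agent.Lib.MP_a57f33_nt.BZ.P_map

/-!
Piece [star]: the trace functional does not change when a block `θ` is added.
-/

namespace Pool.Agent.MP_a57f33_nt.RD

open Pool.Agent.MP_a57f33_nt BZ Matrix

section key

variable {S κ : Type} [CommRing S] [Algebra ℚ S] [Fintype κ] [DecidableEq κ]

theorem star_SW_add {M : Type} [AddCommMonoid M] (n : ℕ) (f g : List Bool → M) :
    SW n f + SW n g = SW n (fun w => f w + g w) := by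
  have := cnv_SW_sum (M := M) (Finset.univ : Finset Bool) n (fun b w => cond b (f w) (g w))
  simpa using this.symm

theorem star_SW_zero {M : Type} [AddCommMonoid M] (n : ℕ) :
    SW n (fun _ : List Bool => (0 : M)) = 0 := by
  have := cnv_SW_map (0 : M →+ M) n (fun _ => (0 : M))
  simpa using this.symm

theorem star_SW_zero' {M : Type} [AddCommMonoid M] (n : ℕ) (f : List Bool → M)
    (h : ∀ w, f w = 0) : SW n f = 0 := by
  rw [show f = fun _ => 0 from funext h]
  exact star_SW_zero n

/-- First step: the letter is moved to the end. -/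
theorem star_one (k : List Bool → ℚ) (hk : Cyc k) (z : S) (P Q P' Q' F : Matrix κ κ S)
    (hP : z • P' = P * F) (hQ : z • Q' = Q * F) (n : ℕ) :
    z * SW n (fun w => match w with
      | [] => (0 : S)
      | j :: x => k (j :: x) • (cond j Q' P' * ev P Q x).trace) + (if n = 0 then
        k [] • F.trace else 0) = SW n (fun w => k w • (F * ev P Q w).trace) := by
  cases n with
  | zero => simp [SW, ev]
  | succ n =>
    rw [if_neg (Nat.succ_ne_zero n), add_zero, cnv_SW_snoc n (fun w => k w • (F * ev P Q w).trace)]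
    have key : ∀ (j : Bool) (w : List Bool),
        z * (k (j :: w) • (cond j Q' P' * ev P Q w).trace) =
          k (w ++ [j]) • (F * ev P Q (w ++ [j])).trace := by
      intro j w
      have h1 : z • cond j Q' P' = cond j Q P * F := by
        cases j
        · exact hP
        · exact hQ
      have h2 : ev P Q (w ++ [j]) = ev P Q w * cond j Q P := by
        rw [cnv_ev_append]
        simp [ev]
      rw [hk j w, mul_smul_comm]
      congr 1
      rw [← smul_eq_mul, ← Matrix.trace_smul, ← Matrix.smul_mul, h1, h2, Matrix.mul_assoc,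
        Matrix.trace_mul_comm, Matrix.mul_assoc]
    have hm : z * SW (n + 1) (fun w => match w with
      | [] => (0 : S)
      | j :: x => k (j :: x) • (cond j Q' P' * ev P Q x).trace) =
      SW (n + 1) (fun w => z * (match w with
      | [] => (0 : S)
      | j :: x => k (j :: x) • (cond j Q' P' * ev P Q x).trace)) :=
      cnv_SW_map (AddMonoidHom.mulLeft z) (n + 1) _
    rw [hm]
    simp only [SW]
    rw [cnv_SW_congr n (fun w _ => key false w), cnv_SW_congr n (fun w _ => key true w)]

/-- Second step: the first letter is `true`, and the sum is a matrix sum. -/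
theorem star_two (k : List Bool → ℚ) (P Q F : Matrix κ κ S) (hFP : F * P = 0) (n : ℕ) :
    SW (n + 1) (fun w => k w • (F * ev P Q w).trace) =
      (F * Q * SW n (fun w => k (true :: w) • ev P Q w)).trace := by
  have h0 : SW n (fun w => k (false :: w) • (F * ev P Q (false :: w)).trace) = 0 := by
    apply star_SW_zero'
    intro w
    rw [cnv_ev_cons, cond_false, ← Matrix.mul_assoc, hFP, Matrix.zero_mul, Matrix.trace_zero,
      smul_zero]
  have h1 : (F * Q * SW n (fun w => k (true :: w) • ev P Q w)).trace =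
      SW n (fun w => k (true :: w) • (F * ev P Q (true :: w)).trace) := by
    have h2 := cnv_SW_map ((Matrix.traceAddMonoidHom κ S).comp (AddMonoidHom.mulLeft (F * Q))) n
      (fun w => k (true :: w) • ev P Q w)
    simp only [AddMonoidHom.comp_apply, AddMonoidHom.coe_mulLeft,
      Matrix.traceAddMonoidHom_apply] at h2
    rw [h2]
    apply cnv_SW_congr
    intro w _
    rw [cnv_ev_cons, cond_true, mul_smul_comm, Matrix.trace_smul, Matrix.mul_assoc]
  rw [h1]
  simp only [SW]
  rw [h0, zero_add]

/-- Third step: the last letter. -/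
theorem star_three (k : List Bool → ℚ) (hk : Cyc k) (z : S) (X Y F Q E : Matrix κ κ S)
    (hF : F * F = F) (hY : Y * F = 0) (hX : X * F = z • E) (hE : E * (F * Q) = X + Y) (n : ℕ) :
    (F * Q * SW (n + 1) (fun w => k (true :: w) • ev X Y w)).trace =
      z * SW n (fun w => k (false :: true :: w) • ((X + Y) * ev X Y w).trace) := by
  have h2 := cnv_SW_map ((Matrix.traceAddMonoidHom κ S).comp (AddMonoidHom.mulLeft (F * Q))) (n + 1)
      (fun w => k (true :: w) • ev X Y w)
  simp only [AddMonoidHom.comp_apply, AddMonoidHom.coe_mulLeft,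
      Matrix.traceAddMonoidHom_apply] at h2
  have h3 := cnv_SW_map (AddMonoidHom.mulLeft z) n
    (fun w => k (false :: true :: w) • ((X + Y) * ev X Y w).trace)
  simp only [AddMonoidHom.coe_mulLeft] at h3
  rw [h2, h3, cnv_SW_snoc]
  have hev : ∀ (j : Bool) (w : List Bool), ev X Y (w ++ [j]) = ev X Y w * cond j Y X := by
    intro j w
    rw [cnv_ev_append]
    simp [ev]
  have htr : ∀ M : Matrix κ κ S, (F * Q * M).trace = (F * Q * (M * F)).trace := by
    intro M
    have h4 : (F * Q * (M * F)).trace = (F * (F * Q * M)).trace := by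
      rw [← Matrix.mul_assoc, Matrix.trace_mul_comm]
    rw [h4, ← Matrix.mul_assoc, ← Matrix.mul_assoc, hF]
  have e1 : SW n (fun w => (F * Q * (k (true :: (w ++ [true])) • ev X Y (w ++ [true]))).trace) =
      0 := by
    apply star_SW_zero'
    intro w
    rw [mul_smul_comm, Matrix.trace_smul, htr, hev, cond_true, Matrix.mul_assoc (ev X Y w), hY,
      Matrix.mul_zero, Matrix.mul_zero, Matrix.trace_zero, smul_zero]
  rw [e1, add_zero]
  apply cnv_SW_congr
  intro w _
  have h5 : k (true :: (w ++ [false])) = k (false :: true :: w) := hk false (true :: w)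
  rw [mul_smul_comm, Matrix.trace_smul, htr, hev, cond_false, h5, mul_smul_comm]
  congr 1
  rw [Matrix.mul_assoc (ev X Y w), hX, mul_smul_comm, mul_smul_comm, Matrix.trace_smul,
    smul_eq_mul, ← hE]
  congr 1
  rw [← Matrix.mul_assoc, Matrix.trace_mul_comm, ← Matrix.mul_assoc]

end key

open Polynomial in
/-- The derivative in `θ` is zero. -/
theorem star_deriv (hpair : PairS) {R ι ρ : Type} [Field R] [CharZero R] [Algebra ℚ R]
    [Fintype ι] [DecidableEq ι] [Fintype ρ] [DecidableEq ρ] (k : List Bool → ℚ) (hk : Inv k)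
    (ht : Tw k) (m : ℕ) (A B : Matrix ι ι R[X]) (U : Matrix ι ρ R[X]) (V : Matrix ρ ι R[X])
    (hAB : A + B = U * V) (hA : cnv_D A = 0) (hB : cnv_D B = 0)
    (hU : U.map (fun p => derivative p) = 0) (hV : V.map (fun p => derivative p) = 0) :
    derivative (T k (m + 2) (fromBlocks A ((X : R[X]) • U) 0 0)
      (fromBlocks B 0 V ((X : R[X]) • (1 : Matrix ρ ρ R[X])))) = 0 := by
  set z : R[X] := X with hz
  set P : Matrix (ι ⊕ ρ) (ι ⊕ ρ) R[X] := fromBlocks A (z • U) 0 0 with hP
  set Q : Matrix (ι ⊕ ρ) (ι ⊕ ρ) R[X] := fromBlocks B 0 V (z • (1 : Matrix ρ ρ R[X])) with hQ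
  set F : Matrix (ι ⊕ ρ) (ι ⊕ ρ) R[X] := fromBlocks 0 0 0 1 with hF
  set E : Matrix (ι ⊕ ρ) (ι ⊕ ρ) R[X] := fromBlocks 0 U 0 1 with hE
  have hPd : cnv_D P = fromBlocks 0 U 0 0 := by
    have h1 : (z • U).map (fun p => derivative p) = U := by
      ext i j : 1
      have h2 : derivative (U i j) = 0 := congrFun (congrFun hU i) j
      simp only [Matrix.map_apply, Matrix.smul_apply, smul_eq_mul, derivative_mul, hz,
        derivative_X, one_mul, h2, mul_zero, add_zero]
    unfold cnv_D at hA
    rw [hP, cnv_D, fromBlocks_map, hA, h1]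
    congr 1
  have hQd : cnv_D Q = F := by
    have h1 : (z • (1 : Matrix ρ ρ R[X])).map (fun p => derivative p) = 1 := by
      ext i j : 1
      simp only [Matrix.map_apply, Matrix.smul_apply, Matrix.one_apply, smul_eq_mul, hz]
      split_ifs <;> simp
    unfold cnv_D at hB
    rw [hQ, cnv_D, fromBlocks_map, hB, h1, hV, hF]
    congr 1
  have hT := cnv_T k hk.cyc P Q (m + 2)
  have h1 := star_one k hk.cyc z P Q (cnv_D P) (cnv_D Q) F ?_ ?_ (m + 2)
  · rw [if_neg (by omega), add_zero] at h1
    have h2 := star_two k P Q F ?_ (m + 1)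
    · have h3 := ht.mat R[X] (ι ⊕ ρ) true (m + 1) P Q z (-z)
      have h4 := star_three k hk.cyc z (P + z • (1 : Matrix (ι ⊕ ρ) (ι ⊕ ρ) R[X]))
        (Q + (-z) • (1 : Matrix (ι ⊕ ρ) (ι ⊕ ρ) R[X])) F Q E ?_ ?_ ?_ ?_ m
      · have h5 := hpair R[X] (ι ⊕ ρ) k hk m (P + z • (1 : Matrix (ι ⊕ ρ) (ι ⊕ ρ) R[X]))
          (Q + (-z) • (1 : Matrix (ι ⊕ ρ) (ι ⊕ ρ) R[X]))
        rw [h5, mul_zero, h3, ← h2, ← h1] at h4
        rw [hT]
        have h6 := (mul_eq_zero.mp h4).resolve_left (by rw [hz]; exact X_ne_zero)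
        exact (congrArg (fun t : R[X] => (m + 2) • t) h6).trans (smul_zero _)
      · rw [hF, fromBlocks_multiply]
        simp
      · rw [Matrix.add_mul, Matrix.smul_mul, Matrix.one_mul, hQ, hF, fromBlocks_multiply,
          fromBlocks_smul, fromBlocks_add]
        simp
      · rw [Matrix.add_mul, Matrix.smul_mul, Matrix.one_mul, hP, hF, hE, fromBlocks_multiply,
          fromBlocks_smul, fromBlocks_smul, fromBlocks_add]
        simp
      · have h7 : P + z • (1 : Matrix (ι ⊕ ρ) (ι ⊕ ρ) R[X]) +
            (Q + (-z) • (1 : Matrix (ι ⊕ ρ) (ι ⊕ ρ) R[X])) = P + Q := by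
          rw [neg_smul]
          abel
        rw [h7, hP, hQ, hE, hF, fromBlocks_multiply, fromBlocks_multiply, fromBlocks_add, hAB]
        simp
    · rw [hF, hP, fromBlocks_multiply]
      simp
  · rw [hPd, hP, hF, fromBlocks_multiply, fromBlocks_smul]
    simp
  · rw [hQd, hQ, hF, fromBlocks_multiply, fromBlocks_smul]
    simp

theorem star_ev0 {R ι ρ : Type} [CommRing R] [Fintype ι] [DecidableEq ι] [Fintype ρ]
    [DecidableEq ρ] (A B : Matrix ι ι R) (V : Matrix ρ ι R) : ∀ w : List Bool,
    ∃ (Z : Matrix ρ ι R) (D : Matrix ρ ρ R), ev (fromBlocks A 0 0 0)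
      (fromBlocks B 0 V (0 : Matrix ρ ρ R)) w = fromBlocks (ev A B w) 0 Z D ∧
      (w ≠ [] → D = 0)
  | [] => ⟨0, 1, by simp [ev], fun h => absurd rfl h⟩
  | false :: w => by
    obtain ⟨Z, D, h, -⟩ := star_ev0 A B V w
    refine ⟨0, 0, ?_, fun _ => rfl⟩
    rw [cnv_ev_cons, h, cnv_ev_cons, cond_false, cond_false, fromBlocks_multiply]
    simp
  | true :: w => by
    obtain ⟨Z, D, h, -⟩ := star_ev0 A B V w
    refine ⟨V * ev A B w, 0, ?_, fun _ => rfl⟩
    rw [cnv_ev_cons, h, cnv_ev_cons, cond_true, cond_true, fromBlocks_multiply]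
    simp

theorem star_T0 {R ι ρ : Type} [CommRing R] [Algebra ℚ R] [Fintype ι] [DecidableEq ι] [Fintype ρ]
    [DecidableEq ρ] (k : List Bool → ℚ) (n : ℕ) (hn : 1 ≤ n) (A B : Matrix ι ι R)
    (V : Matrix ρ ι R) :
    T k n (fromBlocks A 0 0 0) (fromBlocks B 0 V (0 : Matrix ρ ρ R)) = T k n A B := by
  unfold T
  apply cnv_SW_congr
  intro w hw
  obtain ⟨Z, D, h, hD⟩ := star_ev0 A B V w
  have hne : w ≠ [] := by
    rintro rfl
    simp at hw
    omega
  rw [h, hD hne]
  congr 1
  simp [Matrix.trace, Fintype.sum_sum_type]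

theorem p_star : StarS := by
  intro hpair R ι ρ _ _ _ _ _ _ k hk ht n hn A B U V hAB θ
  have : CharZero R := algebraRat.charZero R
  obtain ⟨m, rfl⟩ : ∃ m, n = m + 2 := ⟨n - 2, by omega⟩
  have hder := star_deriv hpair k hk ht m (A.map (Polynomial.C : R →+* Polynomial R))
    (B.map (Polynomial.C : R →+* Polynomial R)) (U.map (Polynomial.C : R →+* Polynomial R))
    (V.map (Polynomial.C : R →+* Polynomial R)) ?_ ?_ ?_ ?_ ?_
  · have hconst := Polynomial.derivative_eq_zero.mp hder
    obtain ⟨r, hr⟩ : ∃ r : R, T k (m + 2) (fromBlocks (A.map (Polynomial.C : R →+* Polynomial R))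
        ((Polynomial.X : Polynomial R) • (U.map (Polynomial.C : R →+* Polynomial R))) 0 0)
        (fromBlocks (B.map (Polynomial.C : R →+* Polynomial R)) 0
          (V.map (Polynomial.C : R →+* Polynomial R))
          ((Polynomial.X : Polynomial R) • (1 : Matrix ρ ρ (Polynomial R)))) = Polynomial.C r :=
      ⟨_, Polynomial.eq_C_of_natDegree_eq_zero hconst⟩
    have hev : ∀ x : R, T k (m + 2) (fromBlocks A (x • U) 0 0)
        (fromBlocks B 0 V (x • (1 : Matrix ρ ρ R))) = r := by
      intro x
      have h := p_map (Polynomial R) R (ι ⊕ ρ) ((Polynomial.aeval x).restrictScalars ℚ) k (m + 2)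
        (fromBlocks (A.map (Polynomial.C : R →+* Polynomial R))
        ((Polynomial.X : Polynomial R) • (U.map (Polynomial.C : R →+* Polynomial R))) 0 0)
        (fromBlocks (B.map (Polynomial.C : R →+* Polynomial R)) 0
          (V.map (Polynomial.C : R →+* Polynomial R))
          ((Polynomial.X : Polynomial R) • (1 : Matrix ρ ρ (Polynomial R))))
      rw [hr] at h
      have e1 : (fromBlocks (A.map (Polynomial.C : R →+* Polynomial R))
        ((Polynomial.X : Polynomial R) • (U.map (Polynomial.C : R →+* Polynomial R))) 0 0).map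
          ((Polynomial.aeval x).restrictScalars ℚ : Polynomial R →ₐ[ℚ] R) =
          fromBlocks A (x • U) (0 : Matrix ρ ι R) (0 : Matrix ρ ρ R) := by
        rw [fromBlocks_map]
        congr 1
        · ext i j : 1
          simp
        · ext i j : 1
          simp only [Matrix.map_apply, Matrix.smul_apply, smul_eq_mul]
          rw [map_mul]
          simp
        · ext i j : 1
          simp
        · ext i j : 1
          simp
      have e2 : (fromBlocks (B.map (Polynomial.C : R →+* Polynomial R)) 0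
          (V.map (Polynomial.C : R →+* Polynomial R))
          ((Polynomial.X : Polynomial R) • (1 : Matrix ρ ρ (Polynomial R)))).map
          ((Polynomial.aeval x).restrictScalars ℚ : Polynomial R →ₐ[ℚ] R) =
          fromBlocks B (0 : Matrix ι ρ R) V (x • (1 : Matrix ρ ρ R)) := by
        rw [fromBlocks_map]
        congr 1
        · ext i j : 1
          simp
        · ext i j : 1
          simp
        · ext i j : 1
          simp
        · ext i j : 1
          simp only [Matrix.map_apply, Matrix.smul_apply, Matrix.one_apply, smul_eq_mul]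
          split_ifs <;> simp
      rw [e1, e2] at h
      rw [h]
      simp
    have h0 := hev 0
    rw [zero_smul, zero_smul, star_T0 k (m + 2) (by omega) A B V] at h0
    rw [hev θ, h0]
  · rw [← Matrix.map_mul, ← hAB, Matrix.map_add _ (fun a b => map_add _ a b)]
  · ext i j : 1
    simp [cnv_D]
  · ext i j : 1
    simp [cnv_D]
  · ext i j : 1
    simp
  · ext i j : 1
    simp

end Pool.Agent.MP_a57f33_nt.RD
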