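import Pool.Agent.Lib.MP_a57f33_nt.RD.Stm
import Pool.Agent.Lib.MP_a57f33_nt.BZ.P_tw

/-!
Piece [tra]: translation of the vanishing of `G (Dl ψ)` into duality for the evaluation at matrices.
-/

namespace Pool.Agent.MP_a57f33_nt.RD

open Pool.Agent.MP_a57f33_nt BZ Matrix

theorem tra_SW_not {M : Type} [AddCommMonoid M] (n : ℕ) : ∀ f : List Bool → M,
    SW n (fun w => f (w.map not)) = SW n f := by
  induction n with
  | zero => intro f; rfl
  | succ n ih =>
    intro f
    have h1 := ih (fun w => f (true :: w))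
    have h2 := ih (fun w => f (false :: w))
    change SW n (fun w => f (true :: w.map not)) + SW n (fun w => f (false :: w.map not)) =
      SW n (fun w => f (false :: w)) + SW n (fun w => f (true :: w))
    rw [h1, h2, add_comm]

theorem tra_ev_not {S : Type} [Monoid S] (A B : S) (w : List Bool) :
    ev A B (w.map not) = ev B A w := by
  unfold ev
  rw [List.map_map]
  congr 1
  apply List.map_congr_left
  intro b _
  cases b <;> rfl

theorem tra_Dl (ψ : QX) (w : List Bool) : Dl ψ (false :: w) - Dl ψ (true :: w) =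
    -(coeff (sgn ψ) w + coeff (sgn ψ) (w.map not)) := by
  change (coeff (ph0 ψ) w - coeff (ph1 ψ) (w.map not)) -
    (coeff (ph1 ψ) w - coeff (ph0 ψ) (w.map not)) = _
  unfold ph0 ph1
  rw [coeff_sub, coeff_sub]
  ring

section

variable {R ι : Type} [CommRing R] [Algebra ℚ R] [Fintype ι] [DecidableEq ι]

theorem tra_evalM_iota (X Y : Matrix ι ι R) (b : Bool) :
    evalM X Y (FreeAlgebra.ι ℚ b) = if b then Y else X := by
  unfold evalM
  rw [FreeAlgebra.lift_ι_apply]

theorem tra_evalM_word (X Y : Matrix ι ι R) (v : List Bool) : evalM X Y (word v) = ev X Y v := by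
  induction v with
  | nil => rw [word_nil, map_one]; rfl
  | cons a v ih =>
    have h1 : ev X Y (a :: v) = cond a Y X * ev X Y v := by simp [ev]
    rw [word_cons, map_mul, ih, tra_evalM_iota, h1]
    cases a <;> rfl

/-- The value at 1 of the homogenized evaluation. -/
theorem tra_eval_one (X Y : Matrix ι ι R) (φ : QX) :
    Polynomial.eval 1 (tw_EV X Y φ) = evalM X Y φ := by
  obtain ⟨L1, hL1⟩ : ∃ L1 : QX →ₗ[ℚ] Matrix ι ι R,
      ∀ x, L1 x = Polynomial.eval 1 (tw_EV X Y x) :=
    ⟨{ toFun := fun x => Polynomial.eval 1 (tw_EV X Y x)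
       map_add' := by intro x y; rw [map_add, Polynomial.eval_add]
       map_smul' := by
        intro r x
        rw [map_smul, Polynomial.eval_smul]
        rfl }, fun x => rfl⟩
  have h : L1 = (evalM X Y).toLinearMap := by
    apply linear_ext
    intro v
    rw [hL1, tw_EV_word, Polynomial.C_mul_X_pow_eq_monomial, Polynomial.eval_monomial, one_pow,
      mul_one, AlgHom.toLinearMap_apply, tra_evalM_word]
  rw [← hL1, h, AlgHom.toLinearMap_apply]

theorem tra_sgn (X Y : Matrix ι ι R) (φ : QX) : evalM X Y (sgn φ) = evalM X (-Y) φ := by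
  have h : (evalM X Y).comp sgn = evalM X (-Y) := by
    apply FreeAlgebra.hom_ext
    funext b
    change evalM X Y (sgn (FreeAlgebra.ι ℚ b)) = evalM X (-Y) (FreeAlgebra.ι ℚ b)
    rw [tra_evalM_iota]
    cases b
    · have e : sgn (FreeAlgebra.ι ℚ false) = FreeAlgebra.ι ℚ false := by simp [sgn]
      rw [e, tra_evalM_iota]
      rfl
    · have e : sgn (FreeAlgebra.ι ℚ true) = -FreeAlgebra.ι ℚ true := by simp [sgn]
      rw [e, map_neg, tra_evalM_iota]
      rfl
  rw [← h]
  rfl

theorem tra_dual (X Y : Matrix ι ι R) {φ : QX} (h : φ ∈ LieX) :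
    evalM X Y (dual φ) = -evalM (-Y) (-X) φ := by
  refine lie_induction (P := fun φ => evalM X Y (dual φ) = -evalM (-Y) (-X) φ) ?_ ?_ ?_ ?_ ?_ h
  · intro b
    rw [dual_eq_anti, anti_iota, tra_evalM_iota, tra_evalM_iota]
    cases b <;> simp
  · rw [dual_eq_anti, map_zero, map_zero, map_zero, neg_zero]
  · intro x y hx hy
    rw [dual_eq_anti] at hx hy ⊢
    rw [map_add, map_add, map_add, hx, hy, neg_add]
  · intro r x hx
    rw [dual_eq_anti] at hx ⊢
    rw [map_smul, map_smul, map_smul, hx, smul_neg]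
  · intro x y _ _ hx hy
    rw [dual_eq_anti] at hx hy ⊢
    rw [map_sub, anti_mul, anti_mul, map_sub, map_mul, map_mul, hx, hy, map_sub, map_mul, map_mul]
    noncomm_ring

end

theorem p_tra : TraS := by
  intro R ι _ _ _ _ ψ hψ A B hG
  have hP : tw_EV A B (sgn ψ) + tw_EV B A (sgn ψ) = 0 := by
    apply Polynomial.ext
    intro m
    rw [Polynomial.coeff_add, tw_coeff, tw_coeff, Polynomial.coeff_zero,
      ← tra_SW_not m (fun w => coeff (sgn ψ) w • ev B A w), ← tw_SW_add]
    have h1 := hG m
    unfold G at h1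
    have h2 : (fun w => (Dl ψ (false :: w) - Dl ψ (true :: w)) • ev A B w) =
        fun w => (-1 : ℚ) • (coeff (sgn ψ) w • ev A B w +
          coeff (sgn ψ) (w.map not) • ev B A (w.map not)) := by
      funext w
      rw [tra_Dl, tra_ev_not, ← add_smul, smul_smul]
      congr 1
      ring
    rw [h2, tw_SW_smul, smul_eq_zero] at h1
    rcases h1 with h1 | h1
    · norm_num at h1
    · exact h1
  have hE : evalM A B (sgn ψ) + evalM B A (sgn ψ) = 0 := by
    rw [← tra_eval_one, ← tra_eval_one, ← Polynomial.eval_add, hP, Polynomial.eval_zero]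
  rw [tra_sgn, tra_sgn] at hE
  rw [tra_dual A (-B) hψ.1, neg_neg]
  exact eq_neg_of_add_eq_zero_left hE

end Pool.Agent.MP_a57f33_nt.RD
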