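import Pool.Agent.Lib.MP_a57f33_nt.RD.Stm
import Pool.Agent.Lib.MP_a57f33_nt.BZ.P_tw

/-!
Piece [twi]: the functional `Dl ψ` is invariant under twists.
-/

namespace Pool.Agent.MP_a57f33_nt.RD

open Pool.Agent.MP_a57f33_nt BZ Matrix

theorem twi_SW_not {M : Type} [AddCommMonoid M] (n : ℕ) : ∀ f : List Bool → M,
    SW n (fun w => f (w.map not)) = SW n f := by
  induction n with
  | zero => intro f; rfl
  | succ n ih =>
    intro f
    have h1 := ih (fun w => f (true :: w))
    have h2 := ih (fun w => f (false :: w))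
    change SW n (fun w => f (true :: w.map not)) + SW n (fun w => f (false :: w.map not)) =
      SW n (fun w => f (false :: w)) + SW n (fun w => f (true :: w))
    rw [h1, h2, add_comm]

theorem twi_ev_not {S : Type} [Monoid S] (A B : S) (w : List Bool) :
    ev A B (w.map not) = ev B A w := by
  unfold ev
  rw [List.map_map]
  congr 1
  apply List.map_congr_left
  intro b _
  cases b <;> rfl

theorem twi_SW_sub {M : Type} [AddCommGroup M] (n : ℕ) : ∀ f g : List Bool → M,
    SW n (fun w => f w - g w) = SW n f - SW n g := by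
  induction n with
  | zero => intro f g; rfl
  | succ n ih =>
    intro f g
    simp only [SW]
    rw [ih, ih]
    abel

theorem twi_mat {R ι : Type} [CommRing R] [Algebra ℚ R] [Fintype ι] [DecidableEq ι]
    {φ : QX} (h : φ ∈ LieX) (h0 : coeff φ [false] = 0) (h1 : coeff φ [true] = 0) (m : ℕ)
    (X Y : Matrix ι ι R) (μ ν : R) :
    SW m (fun w => coeff φ w • ev (X + μ • (1 : Matrix ι ι R)) (Y + ν • (1 : Matrix ι ι R)) w) =
      SW m (fun w => coeff φ w • ev X Y w) := by
  rw [← tw_coeff, ← tw_coeff, tw_shift X Y μ ν h, h0, h1, zero_smul, zero_smul, add_zero, add_zero]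

theorem p_twi : TwiS := by
  intro ψ hψ
  have hL : ψ ∈ LieX := hψ.1
  have h0 : coeff ψ [false] = 0 := hψ.2.1
  have h1 : coeff ψ [true] = 0 := hψ.2.2.1
  have hph1 : ph1 ψ ∈ LieX := tw_rot_mem hL
  have hph0 : ph0 ψ ∈ LieX := sub_mem (tw_rot_mem hL) (tw_sgn_mem hL)
  have hl1 : ∀ c, coeff (ph1 ψ) [c] = 0 := by
    intro c
    unfold ph1
    rw [tw_lin rot c hL, h0, h1]
    ring
  have hl0 : ∀ c, coeff (ph0 ψ) [c] = 0 := by
    intro c
    unfold ph0
    rw [coeff_sub, tw_lin rot c hL, tw_lin sgn c hL, h0, h1]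
    ring
  have hK : ∀ (R ι : Type) [CommRing R] [Algebra ℚ R] [Fintype ι] [DecidableEq ι] (b : Bool)
      (m : ℕ) (X Y : Matrix ι ι R) (μ ν : R),
      SW m (fun w => K ψ (b :: w) •
        ev (X + μ • (1 : Matrix ι ι R)) (Y + ν • (1 : Matrix ι ι R)) w) =
      SW m (fun w => K ψ (b :: w) • ev X Y w) := by
    intro R ι _ _ _ _ b m X Y μ ν
    cases b with
    | false => exact twi_mat hph0 (hl0 false) (hl0 true) m X Y μ ν
    | true => exact twi_mat hph1 (hl1 false) (hl1 true) m X Y μ ν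
  refine ⟨?_, ?_⟩
  · intro R ι _ _ _ _ b m X Y μ ν
    have key : ∀ X Y : Matrix ι ι R, SW m (fun w => Dl ψ (b :: w) • ev X Y w) =
        SW m (fun w => K ψ (b :: w) • ev X Y w) - SW m (fun w => K ψ ((!b) :: w) • ev Y X w) := by
      intro X Y
      rw [← twi_SW_not m (fun w => K ψ ((!b) :: w) • ev Y X w), ← twi_SW_sub]
      congr 1
      funext w
      rw [twi_ev_not]
      exact sub_smul _ _ _
    rw [key, key, hK, hK]
  · intro R ι _ _ _ _ n X Y μ ν
    have key : ∀ X Y : Matrix ι ι R, T (Dl ψ) n X Y = T (K ψ) n X Y - T (K ψ) n Y X := by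
      intro X Y
      unfold T
      rw [← twi_SW_not n (fun w => K ψ w • (ev Y X w).trace), ← twi_SW_sub]
      congr 1
      funext w
      rw [twi_ev_not]
      exact sub_smul _ _ _
    rw [key, key, tw_main R ι ψ hψ, tw_main R ι ψ hψ]

end Pool.Agent.MP_a57f33_nt.RD
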