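import Pool.Agent.Lib.MP_a57f33_nt.RD.Main0
import Pool.Agent.Lib.MP_a57f33_nt.RD.P_inv
import Pool.Agent.Lib.MP_a57f33_nt.RD.P_twi
import Pool.Agent.Lib.MP_a57f33_nt.RD.P_pair
import Pool.Agent.Lib.MP_a57f33_nt.RD.P_star
import Pool.Agent.Lib.MP_a57f33_nt.RD.P_mom
import Pool.Agent.Lib.MP_a57f33_nt.RD.P_dT
import Pool.Agent.Lib.MP_a57f33_nt.RD.P_rs
import Pool.Agent.Lib.MP_a57f33_nt.RD.P_msr
import Pool.Agent.Lib.MP_a57f33_nt.RD.P_chn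
import Pool.Agent.Lib.MP_a57f33_nt.RD.P_dsr
import Pool.Agent.Lib.MP_a57f33_nt.RD.P_det
import Pool.Agent.Lib.MP_a57f33_nt.RD.P_spl
import Pool.Agent.Lib.MP_a57f33_nt.RD.P_grd
import Pool.Agent.Lib.MP_a57f33_nt.RD.P_gen
import Pool.Agent.Lib.MP_a57f33_nt.RD.P_gn3
import Pool.Agent.Lib.MP_a57f33_nt.RD.P_tra
import Pool.Agent.Lib.MP_a57f33_nt.RD.P_cen
import Pool.Agent.Lib.MP_a57f33_nt.RD.P_hex

/-!
The rank two duality on `dm₀`.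
-/

namespace Pool.Agent.MP_a57f33_nt.RD

open Pool.Agent.MP_a57f33_nt BZ Matrix

/-- Rank two duality, and duality and the hexagon on 3×3 matrices. -/
theorem rd_main (ψ : QX) (h : ψ ∈ dm0) (R : Type) [CommRing R] [Algebra ℚ R] :
    (∀ (n : ℕ) (X Y : Matrix (Fin n) (Fin n) R) (c : R) (U : Matrix (Fin n) (Fin 2) R)
      (V : Matrix (Fin 2) (Fin n) R), X - Y = c • (1 : Matrix (Fin n) (Fin n) R) + U * V →
        evalM X Y ψ = evalM X Y (dual ψ)) ∧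
    (∀ X Y : Matrix (Fin 3) (Fin 3) R, evalM X Y ψ = evalM X Y (dual ψ)) ∧
    ∀ A B : Matrix (Fin 3) (Fin 3) R,
      evalM A (-B) ψ + evalM B (A + B) ψ + evalM (-A - B) (-A) ψ = 0 :=
  main_all p_inv p_twi p_pair p_star p_mom p_dT p_rs p_msr p_chn p_dsr p_det p_spl p_grd p_gen
    p_gn3 p_tra p_cen p_hex ψ h R

end Pool.Agent.MP_a57f33_nt.RD
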