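import Pool.Agent.Lib.MP_a57f33_nt.RD.Stm

/-!
Assembly of the rank two duality from the pieces.
-/

namespace Pool.Agent.MP_a57f33_nt.RD

open Pool.Agent.MP_a57f33_nt BZ Matrix

section step

variable {F ι ρ : Type} [Field F] [Algebra ℚ F] [Fintype ι] [DecidableEq ι] [Fintype ρ]
  [DecidableEq ρ]

/-- One step of the chain does not change `T`. -/
theorem main_step (hpair : PairS) (hstar : StarS) (k : List Bool → ℚ) (hk : Inv k) (ht : Tw k)
    (n : ℕ) (hn : 2 ≤ n) (A : Matrix ι ι F) (U : Matrix ι ρ F) (V : Matrix ρ ι F) (x y : F) :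
    T k n (fromBlocks A ((y - x) • U) 0 (y • (1 : Matrix ρ ρ F)))
      (fromRows U (1 : Matrix ρ ρ F) * fromCols V ((y - x) • (1 : Matrix ρ ρ F)) -
        fromBlocks A ((y - x) • U) 0 (y • (1 : Matrix ρ ρ F))) = T k n A (U * V - A) := by
  have h1 := hstar hpair F ι ρ k hk ht n hn (A + (-y) • (1 : Matrix ι ι F))
    ((U * V - A) + y • (1 : Matrix ι ι F)) U V (by rw [neg_smul]; abel) (y - x)
  rw [ht.tr F ι n A (U * V - A) (-y) y] at h1
  rw [← h1, ← ht.tr F (ι ⊕ ρ) n (fromBlocks (A + (-y) • (1 : Matrix ι ι F)) ((y - x) • U) 0 0)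
    (fromBlocks ((U * V - A) + y • (1 : Matrix ι ι F)) 0 V ((y - x) • (1 : Matrix ρ ρ F))) y (-y)]
  congr 1
  · rw [← fromBlocks_one, fromBlocks_smul, fromBlocks_add]
    congr 1
    · rw [neg_smul]; abel
    · simp
    · simp
    · simp
  · rw [fromRows_mul_fromCols, ← fromBlocks_one, fromBlocks_smul, fromBlocks_add, sub_eq_add_neg,
      fromBlocks_neg, fromBlocks_add]
    congr 1
    · rw [neg_smul]; abel
    · simp
    · simp
    · simp only [Matrix.one_mul]
      rw [neg_smul]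
    

end step

/-- The chain over a list. -/
theorem main_chain (hpair : PairS) (hstar : StarS) (hrs : RsS) (hchn : ChnS)
    {F ρ : Type} [Field F] [Algebra ℚ F] [Fintype ρ] [DecidableEq ρ]
    (k : List Bool → ℚ) (hk : Inv k) (ht : Tw k) (n : ℕ) (hn : 2 ≤ n) (l : List (F × F)) :
    ∀ (ι : Type) [Fintype ι] [DecidableEq ι] (A : Matrix ι ι F) (U : Matrix ι ρ F)
      (V : Matrix ρ ι F),
    ∃ (κ : Type) (_ : Fintype κ) (_ : DecidableEq κ) (A' : Matrix κ κ F) (U' : Matrix κ ρ F)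
      (V' : Matrix ρ κ F),
      T k n A' (U' * V' - A') = T k n A (U * V - A) ∧
      (l.map fun p => 1 - PowerSeries.C p.2 * PowerSeries.X).prod • ser A' U' V' =
        (l.map fun p => 1 - PowerSeries.C p.1 * PowerSeries.X).prod • ser A U V := by
  induction l with
  | nil =>
    intro ι _ _ A U V
    exact ⟨ι, inferInstance, inferInstance, A, U, V, rfl, rfl⟩
  | cons p l ih =>
    intro ι _ _ A U V
    obtain ⟨κ, i1, i2, A', U', V', h1, h2⟩ := ih (ι ⊕ ρ)
      (fromBlocks A ((p.2 - p.1) • U) 0 (p.2 • (1 : Matrix ρ ρ F)))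
      (fromRows U (1 : Matrix ρ ρ F)) (fromCols V ((p.2 - p.1) • (1 : Matrix ρ ρ F)))
    refine ⟨κ, i1, i2, A', U', V', ?_, ?_⟩
    · rw [h1]
      exact main_step hpair hstar k hk ht n hn A U V p.1 p.2
    · rw [List.map_cons, List.map_cons, List.prod_cons, List.prod_cons, mul_smul, h2, smul_comm,
        hchn hrs F ι ρ A U V p.1 p.2, smul_smul, mul_comm]

section ser

variable {F ι ρ : Type} [Field F] [Fintype ι] [DecidableEq ι] [Fintype ρ] [DecidableEq ρ]

theorem main_sC_mul {α β γ : Type} [Fintype β] (A : Matrix α β F) (B : Matrix β γ F) :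
    A.map (fun a => PowerSeries.C a) * B.map (fun a => PowerSeries.C a) =
      (A * B).map (fun a => (PowerSeries.C a : PowerSeries F)) := by
  ext i j : 1
  simp only [Matrix.mul_apply, Matrix.map_apply, map_sum, map_mul]

theorem main_ser_conj (A : Matrix ι ι F) (U : Matrix ι ρ F) (V : Matrix ρ ι F)
    (J J' : Matrix ρ ρ F) (h : J * J' = 1) :
    ser A (U * J') (J * V) = sC J * ser A U V * sC J' := by
  have e1 : sC (U * J') = sC U * sC J' := (main_sC_mul U J').symm
  have e2 : sC (J * V) = sC J * sC V := (main_sC_mul J V).symm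
  have e3 : sC J * sC J' = (1 : Matrix ρ ρ (PowerSeries F)) := by
    unfold sC
    rw [main_sC_mul, h]
    ext i j : 1
    by_cases hij : i = j
    · subst hij; simp
    · simp [hij]
  unfold ser
  rw [e1, e2, Matrix.mul_add, Matrix.add_mul, Matrix.mul_one, e3]
  congr 1
  rw [Matrix.mul_smul, Matrix.smul_mul]
  simp only [Matrix.mul_assoc]

end ser

/-- `T = 0` in rank two over an algebraically closed field. -/
theorem main_zero (hpair : PairS) (hstar : StarS) (hmom : MomS) (hdT : DTS) (hrs : RsS)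
    (hmsr : MsrS) (hchn : ChnS) (hdsr : DsrS) (hdet : DetS) (hspl : SplS)
    {F ι : Type} [Field F] [Algebra ℚ F] [IsAlgClosed F] [Fintype ι] [DecidableEq ι]
    (k : List Bool → ℚ) (hk : Inv k) (ht : Tw k) (n : ℕ) (hn : 2 ≤ n)
    (A : Matrix ι ι F) (U : Matrix ι (Fin 2) F) (V : Matrix (Fin 2) ι F) :
    T k n A (U * V - A) = 0 := by
  have : CharZero F := algebraRat.charZero F
  obtain ⟨B, hB⟩ : ∃ B, B = U * V - A := ⟨_, rfl⟩
  have hAB : A + B = U * V := by rw [hB]; abel
  obtain ⟨la, hla, hda⟩ := hspl F ι A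
  obtain ⟨lb, hlb, hdb⟩ := hspl F ι (-B)
  obtain ⟨κ, i1, i2, A', U', V', hT, hS⟩ := main_chain hpair hstar hrs hchn k hk ht n hn
    (la.zip lb) ι A U V
  have hf : (la.zip lb).map (fun p => 1 - PowerSeries.C p.1 * (PowerSeries.X : PowerSeries F)) =
      la.map (fun a => 1 - PowerSeries.C a * (PowerSeries.X : PowerSeries F)) := by
    have : (la.zip lb).map (fun p => 1 - PowerSeries.C p.1 * (PowerSeries.X : PowerSeries F)) =
        ((la.zip lb).map Prod.fst).map
          (fun a => 1 - PowerSeries.C a * (PowerSeries.X : PowerSeries F)) := by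
      rw [List.map_map]; rfl
    rw [this, List.map_fst_zip (by omega)]
  have hs : (la.zip lb).map (fun p => 1 - PowerSeries.C p.2 * (PowerSeries.X : PowerSeries F)) =
      lb.map (fun a => 1 - PowerSeries.C a * (PowerSeries.X : PowerSeries F)) := by
    have : (la.zip lb).map (fun p => 1 - PowerSeries.C p.2 * (PowerSeries.X : PowerSeries F)) =
        ((la.zip lb).map Prod.snd).map
          (fun a => 1 - PowerSeries.C a * (PowerSeries.X : PowerSeries F)) := by
      rw [List.map_map]; rfl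
    rw [this, List.map_snd_zip (by omega)]
  rw [hf, hs, ← hda, ← hdb] at hS
  have hnB : 1 - (PowerSeries.X : PowerSeries F) • sC (-B) =
      1 + (PowerSeries.X : PowerSeries F) • sC B := by
    have : sC (-B) = -sC B := by
      ext i j : 1
      simp [sC]
    rw [this, smul_neg, sub_neg_eq_add]
  rw [hnB, ← hdet hrs F ι (Fin 2) A B U V hAB] at hS
  -- `det Ψ • ser' = Ψ`
  have hua : IsUnit (1 - (PowerSeries.X : PowerSeries F) • sC A).det := by
    have h := (hrs F ι A).1
    have h2 := congrArg Matrix.det h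
    rw [Matrix.det_mul, Matrix.det_one] at h2
    exact IsUnit.of_mul_eq_one _ h2
  have hS2 : (ser A U V).det • ser A' U' V' = ser A U V := by
    rw [mul_smul] at hS
    exact (hua.smul_left_cancel).mp hS
  -- the dual series
  have hD := hdsr hrs F ι (Fin 2) A B U V hAB
  have hud : IsUnit (ser A U V).det := by
    have h2 := congrArg Matrix.det hD
    rw [Matrix.det_mul, Matrix.det_one] at h2
    exact IsUnit.of_mul_eq_one _ h2
  have hadj : (ser A U V).det • (ser (-Bᵀ) (-Vᵀ) Uᵀ) = (ser A U V).adjugateᵀ := by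
    have h2 := congrArg (fun M => (ser A U V).adjugate * M) hD
    simp only [Matrix.mul_one] at h2
    rw [← Matrix.mul_assoc, Matrix.adjugate_mul, Matrix.smul_mul, Matrix.one_mul] at h2
    rw [← h2, Matrix.transpose_smul, Matrix.transpose_transpose]
  let J : Matrix (Fin 2) (Fin 2) F := !![0, 1; -1, 0]
  have hJ : J * Jᵀ = 1 := by
    ext i j
    fin_cases i <;> fin_cases j <;> simp [J, Matrix.mul_apply, Fin.sum_univ_two]
  have hJ' : Jᵀ * J = 1 := by
    ext i j
    fin_cases i <;> fin_cases j <;> simp [J, Matrix.mul_apply, Fin.sum_univ_two]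
  have hcj : ∀ M : Matrix (Fin 2) (Fin 2) (PowerSeries F), sC J * M * sC Jᵀ = M.adjugateᵀ := by
    intro M
    rw [Matrix.adjugate_fin_two]
    ext i j : 1
    fin_cases i <;> fin_cases j <;>
      simp [J, sC, Matrix.mul_apply, Fin.sum_univ_two]
  have hser : ser A' (U' * Jᵀ) (J * V') = ser (-Bᵀ) (-Vᵀ) Uᵀ := by
    apply (hud.smul_left_cancel).mp
    rw [main_ser_conj A' U' V' J Jᵀ hJ, hadj, ← hcj (ser A U V)]
    conv_rhs => rw [← hS2]
    rw [Matrix.mul_smul, Matrix.smul_mul]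
  have hm := hmom F κ ι (Fin 2) k ht n (by omega) A' (U' * Jᵀ) (J * V') (-Bᵀ) (-Vᵀ) Uᵀ
    (hmsr F κ ι (Fin 2) A' (U' * Jᵀ) (J * V') (-Bᵀ) (-Vᵀ) Uᵀ hser)
  have e1 : U' * Jᵀ * (J * V') = U' * V' := by
    rw [Matrix.mul_assoc, ← Matrix.mul_assoc Jᵀ J V', hJ', Matrix.one_mul]
  have e2 : -Vᵀ * Uᵀ - -Bᵀ = -Aᵀ := by
    rw [Matrix.neg_mul, ← Matrix.transpose_mul, ← hAB, Matrix.transpose_add]
    abel
  rw [e1, e2, hT, hdT F ι k hk n A B, ← hB] at hm
  rw [← hB]
  have h3 : (2 : F) * T k n A B = 0 := by linear_combination hm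
  rcases mul_eq_zero.mp h3 with h4 | h4
  · exact absurd h4 two_ne_zero
  · exact h4

theorem main_k0 (k : List Bool → ℚ) (ht : Tw k) (b : Bool) : k [b] = 0 := by
  have h1 := ht.tr ℚ (Fin 1) 1 0 0 (cond b 0 1) (cond b 1 0)
  cases b
  · simpa [T, SW, ev, Matrix.trace] using h1
  · simpa [T, SW, ev, Matrix.trace] using h1

/-- `G = 0` in rank two over an algebraically closed field. -/
theorem main_G (hpair : PairS) (hstar : StarS) (hmom : MomS) (hdT : DTS) (hrs : RsS)
    (hmsr : MsrS) (hchn : ChnS) (hdsr : DsrS) (hdet : DetS) (hspl : SplS) (hgrd : GrdS)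
    {F ι : Type} [Field F] [Algebra ℚ F] [IsAlgClosed F] [Fintype ι] [DecidableEq ι]
    (k : List Bool → ℚ) (hk : Inv k) (ht : Tw k) (m : ℕ)
    (A : Matrix ι ι F) (U : Matrix ι (Fin 2) F) (V : Matrix (Fin 2) ι F) :
    G k m A (U * V - A) = 0 := by
  cases m with
  | zero =>
    unfold G
    simp only [SW]
    rw [main_k0 k ht false, main_k0 k ht true, sub_self, zero_smul]
  | succ m =>
    apply hgrd F ι k hk.cyc (m + 1) (U * V)
    intro A
    exact main_zero hpair hstar hmom hdT hrs hmsr hchn hdsr hdet hspl k hk ht (m + 1 + 1)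
      (by omega) A U V

/-- The main theorem, from the pieces. -/
theorem main_all (hinv : InvS) (htwi : TwiS) (hpair : PairS) (hstar : StarS) (hmom : MomS)
    (hdT : DTS) (hrs : RsS) (hmsr : MsrS) (hchn : ChnS) (hdsr : DsrS) (hdet : DetS) (hspl : SplS)
    (hgrd : GrdS) (hgen : GenS) (hgn3 : Gn3S) (htra : TraS) (hcen : CenS) (hhex : HexS)
    (ψ : QX) (h : ψ ∈ dm0) (R : Type) [CommRing R] [Algebra ℚ R] :
    (∀ (n : ℕ) (X Y : Matrix (Fin n) (Fin n) R) (c : R) (U : Matrix (Fin n) (Fin 2) R)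
      (V : Matrix (Fin 2) (Fin n) R), X - Y = c • (1 : Matrix (Fin n) (Fin n) R) + U * V →
        evalM X Y ψ = evalM X Y (dual ψ)) ∧
    (∀ X Y : Matrix (Fin 3) (Fin 3) R, evalM X Y ψ = evalM X Y (dual ψ)) ∧
    ∀ A B : Matrix (Fin 3) (Fin 3) R,
      evalM A (-B) ψ + evalM B (A + B) ψ + evalM (-A - B) (-A) ψ = 0 := by
  have hk := hinv ψ h
  have ht := htwi ψ h
  have h2 : ∀ (R : Type) [CommRing R] [Algebra ℚ R] (X Y : Matrix (Fin 3) (Fin 3) R),
      evalM X Y ψ = evalM X Y (dual ψ) := by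
    intro R _ _ X Y
    have := htra R (Fin 3) ψ h X (-Y) (fun m => hgn3 (Dl ψ) ht m
      (fun F _ _ _ A U V => main_G hpair hstar hmom hdT hrs hmsr hchn hdsr hdet hspl hgrd
        (Dl ψ) hk ht m A U V) R X (-Y))
    rwa [neg_neg] at this
  refine ⟨?_, h2 R, hhex hcen ψ h h2 R⟩
  intro n X Y c U V hXY
  have hg : ∀ m, G (Dl ψ) m X (-Y) = 0 := by
    intro m
    have := hgen (Dl ψ) ht m
      (fun F _ _ _ n A U V => main_G hpair hstar hmom hdT hrs hmsr hchn hdsr hdet hspl hgrd
        (Dl ψ) hk ht m A U V) R n X c U V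
    rwa [← hXY, show X - Y - X = -Y by abel] at this
  have := htra R (Fin n) ψ h X (-Y) hg
  rwa [neg_neg] at this

end Pool.Agent.MP_a57f33_nt.RD
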