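import Pool.Agent.Lib.MP_a57f33_nt.RD.Stm

/-!
Piece [chn]: one step of the chain.
-/

namespace Pool.Agent.MP_a57f33_nt.RD

open Pool.Agent.MP_a57f33_nt BZ Matrix

variable {R ι κ ρ : Type} [CommRing R] [Fintype ι] [DecidableEq ι] [Fintype κ] [DecidableEq κ]
  [Fintype ρ] [DecidableEq ρ]

omit [Fintype ι] [DecidableEq ι] [Fintype κ] [DecidableEq κ] in
theorem chn_sC_smul (a : R) (U : Matrix ι κ R) : sC (a • U) = PowerSeries.C a • sC U := by
  ext1 i j
  simp [sC]

omit [Fintype ρ] in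
theorem chn_sC_one : sC (1 : Matrix ρ ρ R) = 1 := by
  ext1 i j
  simp only [sC, Matrix.map_apply, Matrix.one_apply]
  split_ifs <;> simp

omit [Fintype ι] [DecidableEq ι] [Fintype κ] [DecidableEq κ] in
theorem chn_sC_zero : sC (0 : Matrix ι κ R) = 0 := by
  ext1 i j
  simp [sC]

omit [Fintype ι] [DecidableEq ι] [Fintype κ] [DecidableEq κ] [Fintype ρ] [DecidableEq ρ] in
theorem chn_sC_rows (U : Matrix ι ρ R) (V : Matrix κ ρ R) :
    sC (fromRows U V) = fromRows (sC U) (sC V) := by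
  ext1 i j
  rcases i with i | i <;> simp [sC]

omit [Fintype ι] [DecidableEq ι] [Fintype κ] [DecidableEq κ] [Fintype ρ] [DecidableEq ρ] in
theorem chn_sC_cols (U : Matrix ρ ι R) (V : Matrix ρ κ R) :
    sC (fromCols U V) = fromCols (sC U) (sC V) := by
  ext1 i j
  rcases j with j | j <;> simp [sC]

omit [Fintype ι] [DecidableEq ι] [Fintype κ] [DecidableEq κ] in
theorem chn_sC_blocks (A : Matrix ι ι R) (B : Matrix ι κ R) (C : Matrix κ ι R)
    (D : Matrix κ κ R) : sC (fromBlocks A B C D) = fromBlocks (sC A) (sC B) (sC C) (sC D) := by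
  rw [sC, fromBlocks_map]
  rfl

theorem p_chn : ChnS := by
  intro hrs R ι ρ _ _ _ _ _ A U V x y
  obtain ⟨h1, _⟩ := hrs R ι A
  obtain ⟨_, h2⟩ := hrs R (ι ⊕ ρ) (fromBlocks A ((y - x) • U) 0 (y • (1 : Matrix ρ ρ R)))
  set r := rs A with hr
  set r' := rs (fromBlocks A ((y - x) • U) 0 (y • (1 : Matrix ρ ρ R))) with hr'
  set W₀ : Matrix (ι ⊕ ρ) ρ (PowerSeries R) :=
    fromRows ((1 - PowerSeries.C x * PowerSeries.X) • (r * sC U)) 1 with hW₀
  have h3 : (1 - (PowerSeries.X : PowerSeries R) •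
      sC (fromBlocks A ((y - x) • U) 0 (y • (1 : Matrix ρ ρ R)))) * W₀ =
      (1 - PowerSeries.C y * PowerSeries.X) • sC (fromRows U (1 : Matrix ρ ρ R)) := by
    rw [chn_sC_blocks, chn_sC_smul, chn_sC_smul, chn_sC_zero, chn_sC_one, chn_sC_rows, chn_sC_one,
      ← fromBlocks_one, fromBlocks_smul, sub_eq_add_neg, fromBlocks_neg, fromBlocks_add, hW₀,
      fromBlocks_mul_fromRows, ← sub_eq_add_neg, ← sub_eq_add_neg, ← sub_eq_add_neg,
      ← sub_eq_add_neg]
    ext1 i j
    rcases i with i | i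
    · have e1 : (1 - (PowerSeries.X : PowerSeries R) • sC A) *
          ((1 - PowerSeries.C x * PowerSeries.X) • (r * sC U)) =
          (1 - PowerSeries.C x * PowerSeries.X) • sC U := by
        rw [Matrix.mul_smul, ← Matrix.mul_assoc, h1, Matrix.one_mul]
      rw [e1]
      simp only [fromRows_apply_inl, Matrix.add_apply, Matrix.smul_apply, Matrix.mul_one,
        Matrix.sub_apply, Matrix.zero_apply, smul_eq_mul, map_sub]
      ring
    · simp only [fromRows_apply_inr, Matrix.add_apply, Matrix.smul_apply, Matrix.mul_one,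
        Matrix.sub_apply, Matrix.zero_apply, smul_eq_mul, smul_zero, sub_zero, Matrix.zero_mul,
        zero_add]
      ring
  have h4 : (1 - PowerSeries.C y * PowerSeries.X) • (r' * sC (fromRows U (1 : Matrix ρ ρ R))) =
      W₀ := by
    rw [← Matrix.mul_smul, ← h3, ← Matrix.mul_assoc, h2, Matrix.one_mul]
  unfold ser
  rw [← hr, ← hr']
  have h5 : (1 - PowerSeries.C y * PowerSeries.X) • (1 + (PowerSeries.X : PowerSeries R) •
      (sC (fromCols V ((y - x) • (1 : Matrix ρ ρ R))) * r' *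
        sC (fromRows U (1 : Matrix ρ ρ R)))) =
      (1 - PowerSeries.C y * PowerSeries.X) • 1 + (PowerSeries.X : PowerSeries R) •
      (sC (fromCols V ((y - x) • (1 : Matrix ρ ρ R))) * W₀) := by
    rw [smul_add, ← h4, Matrix.mul_smul, Matrix.mul_assoc, smul_comm]
  rw [h5, chn_sC_cols, chn_sC_smul, chn_sC_one, hW₀, fromCols_mul_fromRows, Matrix.mul_smul,
    Matrix.mul_one, ← Matrix.mul_assoc]
  ext1 i j
  simp only [Matrix.add_apply, Matrix.smul_apply, smul_eq_mul, map_sub]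
  ring

end Pool.Agent.MP_a57f33_nt.RD
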