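import Pool.Agent.Lib.MP_a57f33_nt.RD.Defs

/-!
# Rank two duality on `dm₀`: statements of the pieces, with proofs in words

Notation: `k` is a function on words (`false = 0`, `true = 1`), `|w|` the length, `w(A,B) = ev A B w`
(`0 ↦ A`, `1 ↦ B`), `SW m f = ∑_{|w| = m} f w`, `T k n A B = ∑_{|w| = n} k(w) tr w(A,B)`.
`K ψ (0w) = (φ₀|w)`, `K ψ (1w) = (φ₁|w)`, `φ₁ = ph1 ψ = rot ψ`, `φ₀ = ph0 ψ = rot ψ - sgn ψ`; both are
Lie elements without linear part. `Dl ψ w = K ψ w - K ψ (w.map not)`.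
Files that may be imported: BZ/Stm and all BZ/P_*.lean (lemmas there: P_cnv has `cnv_SW_*`,
`cnv_cyc_sum`, `cnv_pos`, `cnv_dbl_smul`, `cnv_ev_*`, `cnv_D`, `cnv_D_ev`, `cnv_T`; P_tw has `tw_SW_*`,
`tw_EV`, `tw_coeff`, `tw_shift`, `tw_lin`, `tw_main`, `tw_sgn_mem`, `tw_rot_mem`; P_map has `map_ev`,
`map_SW`, `p_map`). Every piece is independent of the others.
-/

namespace Pool.Agent.MP_a57f33_nt.RD

open Pool.Agent.MP_a57f33_nt BZ Matrix

/-! ## Part I: the functional -/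

/-- [inv] PROOF. `cyc`: `p_cyc ψ h` for `K ψ`, and `(w ++ [a]).map not = w.map not ++ [!a]`.
`dbl`: by induction on `C`, for every `f`: `dbl C (fun w => f (w.map not)) = dbl (C.map not) f`, and
`dbl C (f - g) = dbl C f - dbl C g`; `p_dbl ψ h (p_cyc ψ h) C.length` gives the same value `c` (or 0) at
`C` and at `C.map not` (constant words go to constant words). `ins`: for a Lie element `φ` without
linear part the sum of `(φ|·)` over all insertions of a letter in a word `w` is 0: for `w ≠ []` this is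
`lie_ins` (TwoTermA / LieFacts / BZ.P_dbl use it), for `w = []` it is `(φ|a) = 0` (`tw_lin`, or as in
the proof of `tw_main`); insertions and `map not` commute:
`ins a w (fun t => f (t.map not)) = ins (!a) (w.map not) f`. `rev`: for `w = a :: v`:
`K ψ (a::v).reverse = K ψ (v.reverse ++ [a]) = K ψ (a :: v.reverse) = (φ_a | v.reverse) =
(-1)^(|v|+1) (φ_a | v)` (`lie_reverse`; see `P_rev.lean`). `swap`: `(w.map not).map not = w`. -/
def InvS : Prop := ∀ ψ ∈ dm0, Inv (Dl ψ)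

/-- [twi] PROOF. `tr`: `T (Dl ψ) n X Y = T (K ψ) n X Y - T (K ψ) n Y X` (re-index by `map not`:
`SW n (fun w => f (w.map not)) = SW n f`, `ev X Y (w.map not) = ev Y X w`) and `tw_main`.
`mat`: for `φ ∈ LieX` with `(φ|0) = (φ|1) = 0`: `SW m (coeff φ w • ev X Y w) = (tw_EV X Y φ).coeff m`
(`tw_coeff`) and `tw_shift`. Apply it to `φ_b` and, after re-indexing by `map not`, to `φ_(!b)` with `X`
and `Y` exchanged. -/
def TwiS : Prop := ∀ ψ ∈ dm0, Tw (Dl ψ)

/-- [pair] PROOF. `tr((X+Y) w) = ∑_a tr ((a w)(X,Y))`, so the sum is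
`∑_{|u| = m+1, u = a :: w} k(0 1 w) tr u(X,Y)`. As in `cnv_dbl_sum` (P_cnv.lean; same proof, any
commutative ring), averaging over the rotations of `u` (`cnv_cyc_sum`) gives
`(m+1) ∑_u k(01 tail u) tr u = ∑_{|u| = m+1} E(u) tr u`, `E(u) = ∑_{u = p j q} k(p 0 1 q)`
(the sum over the positions of `u`, the letter `j` replaced by `01`; use `Cyc`). Claim: `E(u) = 0`
for every nonempty `u` (then divide by `m + 1`, `R` is a `ℚ`-algebra). Let `I_a(u)` be the sum over all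
gaps of the CYCLIC word `u` of the insertions of `a`: for `u = b :: w` it is `ins a w (fun t => k(b::t))
= 0`. Insertion of 1 after each letter: `∑_{j=0} k(p 0 1 q) + ∑_{j=1} k(p 1 1 q) = 0`. Insertion of 0
before each letter (cyclically; the insertion before the first letter is by `Cyc` the insertion at the
end): `∑_{j=0} k(p 0 0 q) + ∑_{j=1} k(p 0 1 q) = 0`. And `dbl u k = ∑_{j=0} k(p 0 0 q) +
∑_{j=1} k(p 1 1 q) = 0`. Sum of the first two minus the third: `E(u) = 0`. -/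
def PairS : Prop := ∀ (R ι : Type) [CommRing R] [Algebra ℚ R] [Fintype ι] [DecidableEq ι],
  ∀ k : List Bool → ℚ, Inv k → ∀ (m : ℕ) (X Y : Matrix ι ι R),
    SW m (fun w => k (false :: true :: w) • ((X + Y) * ev X Y w).trace) = 0

/-- [star] PROOF. (Like `cnv_deriv` in P_cnv.lean.) Work over `S = R[z]`, let `θ = z` (the variable):
`𝒜 = [[A, zU],[0, 0]]`, `ℬ = [[B, 0],[V, z]]`, `P(z) = T k n 𝒜 ℬ ∈ R[z]`. `cnv_T`:
`P' = n ∑_{j, |x| = n-1} k(j x) tr (𝒳'_j x(𝒜,ℬ))`, `𝒜' = [[0, U],[0, 0]]`, `ℬ' = [[0,0],[0,1]]`.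
Let `e = [0; 1]` (column block, `Matrix (ι ⊕ ρ) ρ S`), `π = [0, 1]` (row block), `Û = [U; 1]`,
`V̂ = [V, z]`. Then `z 𝒜' = 𝒜 e π`, `z ℬ' = ℬ e π`, `π 𝒜 = 0`, `π ℬ = V̂`, `𝒜 + ℬ = Û V̂`. Hence
`z P' = n ∑_{j,x} k(j x) tr(x(𝒜,ℬ) 𝒳_j e π)`, by `Cyc`: `= n ∑_{|w| = n} k(w) tr(π w(𝒜,ℬ) e)`
(`cnv_SW_snoc`), and as `π 𝒜 = 0`: `= n ∑_{|w| = n-1} k(1w) tr(V̂ w(𝒜,ℬ) e)`. By `Tw.mat` for `b = true`,
`m = n - 1`, the matrices may be replaced by `X = 𝒜 + z`, `Y = ℬ - z` (scalars). `X e = z Û`, `Y e = 0`,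
`X + Y = Û V̂`. So (`cnv_SW_snoc`, `n ≥ 2`) `z P' = n z ∑_{|w| = n-2} k(1 w 0) tr(V̂ w(X,Y) Û) =
n z ∑ k(0 1 w) tr((X+Y) w(X,Y)) = 0` by `PairS` over `S` (`Cyc`: `k(1 w 0) = k(0 1 w)`). So `P' = 0`,
`P` is constant (characteristic 0: `Polynomial.natDegree_eq_zero_of_derivative_eq_zero`; `CharZero R` from
`algebraRat.charZero`), `P(θ) = P(0)`, and for `z = 0` the matrices are `[[A,0],[0,0]]`,
`[[B,0],[V,0]]`: a word of length `≥ 1` in them has the form `[[w(A,B), 0],[*, 0]]`. (Evaluation of `P`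
at `θ`: `RingHom.mapMatrix`, `map_ev` and `map_SW` of P_map.) -/
def StarS : Prop := PairS → ∀ (R ι ρ : Type) [Field R] [Algebra ℚ R] [Fintype ι] [DecidableEq ι]
    [Fintype ρ] [DecidableEq ρ],
  ∀ k : List Bool → ℚ, Inv k → Tw k → ∀ (n : ℕ), 2 ≤ n →
    ∀ (A B : Matrix ι ι R) (U : Matrix ι ρ R) (V : Matrix ρ ι R), A + B = U * V → ∀ θ : R,
      T k n (fromBlocks A (θ • U) 0 0) (fromBlocks B 0 V (θ • (1 : Matrix ρ ρ R))) = T k n A B

/-- [mom] PROOF. Let `F = ∑_{|w| = n} k(w) w(a, c - a) ∈ ℚ⟨a, c⟩` (`QX` with `a = X0`, `c = X1`), a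
homogeneous element of degree `n` (a combination of words of length `n`). For a pair `(A,C)` let
`t_(A,C) : QX → R` be the linear map `x ↦ tr (evaluation of x at (A,C))`. Then
`T k n A (C - A) = t_(A,C) F`. Let `D = t_(A, UV) - t_(A₂, U₂V₂)`. For a word `w` with at least one letter
`c`: a rotation of `w` starts with `c`, and `tr (U V A^{i_1} U V A^{i_2} ⋯ U V A^{i_r}) =
tr (∏_j V A^{i_j} U)` depends only on the matrices `V A^i U`; so `D w = 0`. Hence
`D F = (F | a^n) (tr A^n - tr A₂^n)`, and `(F | a^n) = ∑_{|w| = n} k(w) (-1)^{#1(w)} = T k n 1 (-1)` for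
1×1 matrices over `ℚ`, `= T k n 0 0` by `Tw.tr`, `= 0` since `n ≥ 1`. (Any other proof is fine, e.g.
expand directly by induction: `ev A (C - A) w` is a signed sum of words in `A`, `C`.) -/
def MomS : Prop := ∀ (R ι κ ρ : Type) [CommRing R] [Algebra ℚ R] [Fintype ι] [DecidableEq ι]
    [Fintype κ] [DecidableEq κ] [Fintype ρ] [DecidableEq ρ],
  ∀ k : List Bool → ℚ, Tw k → ∀ (n : ℕ), 1 ≤ n →
    ∀ (A : Matrix ι ι R) (U : Matrix ι ρ R) (V : Matrix ρ ι R)
      (A₂ : Matrix κ κ R) (U₂ : Matrix κ ρ R) (V₂ : Matrix ρ κ R),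
      (∀ i : ℕ, V * A ^ i * U = V₂ * A₂ ^ i * U₂) →
      T k n A (U * V - A) = T k n A₂ (U₂ * V₂ - A₂)

/-- [dT] the duality transformation. PROOF. `w(-Bᵀ,-Aᵀ) = (-1)^n w(Bᵀ,Aᵀ) =
(-1)^n ((w.reverse)(B,A))ᵀ`, so the left side is `∑_w (-1)^n k(w) tr (w.reverse)(B,A) =
∑_w (-1)^n k(w.reverse) tr w(B,A) = ∑_w k(w) tr w(B,A)` (`Inv.rev`; re-indexing of `SW` by `reverse`:
`cnv_SW_snoc` and induction) `= ∑_w k(w.map not) tr w(A,B) = - T k n A B` (`Inv.swap`). -/
def DTS : Prop := ∀ (R ι : Type) [CommRing R] [Algebra ℚ R] [Fintype ι] [DecidableEq ι],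
  ∀ k : List Bool → ℚ, Inv k → ∀ (n : ℕ) (A B : Matrix ι ι R),
    T k n (-Bᵀ) (-Aᵀ) = -T k n A B

/-! ## Part II: the transfer series -/

/-- [rs] PROOF. Coefficients: `(1 - X A) ∑ X^n A^n = 1`. -/
def RsS : Prop := ∀ (R ι : Type) [CommRing R] [Fintype ι] [DecidableEq ι] (A : Matrix ι ι R),
  (1 - (PowerSeries.X : PowerSeries R) • sC A) * rs A = 1 ∧
    rs A * (1 - (PowerSeries.X : PowerSeries R) • sC A) = 1

/-- [msr] PROOF. The coefficient of `X^(i+1)` in the entry `(p,q)` of `ser A U V` is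
`(V A^i U) p q`. -/
def MsrS : Prop := ∀ (R ι κ ρ : Type) [CommRing R] [Fintype ι] [DecidableEq ι]
    [Fintype κ] [DecidableEq κ] [Fintype ρ] [DecidableEq ρ],
  ∀ (A : Matrix ι ι R) (U : Matrix ι ρ R) (V : Matrix ρ ι R)
    (A₂ : Matrix κ κ R) (U₂ : Matrix κ ρ R) (V₂ : Matrix ρ κ R),
    ser A U V = ser A₂ U₂ V₂ → ∀ i : ℕ, V * A ^ i * U = V₂ * A₂ ^ i * U₂

/-- [chn] one step of the chain. PROOF. Let `r = rs A`. The matrix
`[[r, X(y-x)/(1-yX) r U],[0, 1/(1-yX)]]` is the inverse of `1 - X A'`, `A' = [[A,(y-x)U],[0,y]]`, so it is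
`rs A'` (`RsS`; inverses are unique; `1/(1-yX) = PowerSeries.mk (fun n => y^n)`). Hence
`(1-yX) rs A' U' = [(1-xX) r U; 1]` for `U' = [U; 1]` and `(1-yX) V' rs A' U' = (1-xX) V r U + (y-x)` for
`V' = [V, y-x]`; so `(1-yX) ser' = (1-yX) + X(y-x) + (1-xX) X V r U = (1-xX)(1 + X V r U)`.
(To avoid division: let `W = rs A' * sC U'`; it is the unique solution of `(1 - X A') W = U'`, and
`(1-yX) W = [(1-xX) r U; 1]` because both sides times `(1 - X A')` are `(1-yX) U'`.) -/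
def ChnS : Prop := RsS → ∀ (R ι ρ : Type) [CommRing R] [Fintype ι] [DecidableEq ι]
    [Fintype ρ] [DecidableEq ρ],
  ∀ (A : Matrix ι ι R) (U : Matrix ι ρ R) (V : Matrix ρ ι R) (x y : R),
    (1 - PowerSeries.C y * PowerSeries.X) •
      ser (fromBlocks A ((y - x) • U) 0 (y • (1 : Matrix ρ ρ R)))
        (fromRows U (1 : Matrix ρ ρ R)) (fromCols V ((y - x) • (1 : Matrix ρ ρ R))) =
    (1 - PowerSeries.C x * PowerSeries.X) • ser A U V

/-- [dsr] PROOF. `(ser (-Bᵀ) (-Vᵀ) Uᵀ)ᵀ = 1 - X V r' U` with `r' = (1 + X B)⁻¹ = rs (-B)`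
(`(rs (-Bᵀ))ᵀ = rs (-B)`), and `X r (U V) r' = r ((1 + X B) - (1 - X A)) r' = r - r'`, `r = rs A`; so
`(1 + X V r U)(1 - X V r' U) = 1 + X V r U - X V r' U - X V (X r U V r') U = 1`. -/
def DsrS : Prop := RsS → ∀ (R ι ρ : Type) [CommRing R] [Fintype ι] [DecidableEq ι]
    [Fintype ρ] [DecidableEq ρ],
  ∀ (A B : Matrix ι ι R) (U : Matrix ι ρ R) (V : Matrix ρ ι R), A + B = U * V →
    ser A U V * (ser (-Bᵀ) (-Vᵀ) Uᵀ)ᵀ = 1

/-- [det] PROOF. `det(1 + X V r U) = det(1 + X r U V)` (`Matrix.det_one_add_mul_comm`), and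
`(1 - X A)(1 + X r U V) = 1 - X A + X (A + B) = 1 + X B`. -/
def DetS : Prop := RsS → ∀ (R ι ρ : Type) [CommRing R] [Fintype ι] [DecidableEq ι]
    [Fintype ρ] [DecidableEq ρ],
  ∀ (A B : Matrix ι ι R) (U : Matrix ι ρ R) (V : Matrix ρ ι R), A + B = U * V →
    (1 - (PowerSeries.X : PowerSeries R) • sC A).det * (ser A U V).det =
      (1 + (PowerSeries.X : PowerSeries R) • sC B).det

/-- [spl] PROOF. `A.charpoly` splits: `∏ (X - a)` over the multiset of its roots, of size `|ι|`.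
`det(1 - X A) = Matrix.charpolyRev A = A.charpoly.reverse` (`Matrix.reverse_charpoly`), as power series
(`Polynomial.coe…`, `RingHom.map_det`). Or: `det(X - A) = ∏ (X - a)` in `F[X]`, homogenize. Or by
triangularization / induction. -/
def SplS : Prop := ∀ (F ι : Type) [Field F] [IsAlgClosed F] [Fintype ι] [DecidableEq ι],
  ∀ A : Matrix ι ι F, ∃ l : List F, l.length = Fintype.card ι ∧
    (1 - (PowerSeries.X : PowerSeries F) • sC A).det =
      (l.map fun a => 1 - PowerSeries.C a * PowerSeries.X).prod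

/-! ## Part III: gradient and base change -/

/-- [grd] PROOF. Let `E` be a matrix over `F`, `P(z) = T k (m+1) (A + zE) (D - A - zE) ∈ F[z]`. It
vanishes at all `z ∈ F` (evaluation: P_map), `F` is infinite, so `P = 0` and `P'(0) = 0`. By `cnv_T`
(P_cnv.lean) `P'(0) = (m+1) ∑_{|w| = m} (k(0w) tr(E w(A,D-A)) - k(1w) tr(E w(A,D-A)))
= (m+1) tr (E · G k m A (D-A))`. So `tr(E G) = 0` for all `E`; take `E` = matrix units. -/
def GrdS : Prop := ∀ (F ι : Type) [Field F] [Algebra ℚ F] [Fintype ι] [DecidableEq ι],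
  ∀ k : List Bool → ℚ, Cyc k → ∀ (m : ℕ) (D : Matrix ι ι F),
    (∀ A : Matrix ι ι F, T k (m + 1) A (D - A) = 0) → ∀ A : Matrix ι ι F, G k m A (D - A) = 0

/-- [gen] base change of the rank two family. PROOF. Let `P = MvPolynomial σ ℚ`,
`σ = (Fin n × Fin n) ⊕ (Fin n × Fin 2) ⊕ (Fin 2 × Fin n)`, `A, U, V` the generic matrices over `P`, and
`F = AlgebraicClosure (FractionRing P)`; `P → F` is injective, `G` commutes with base change
(`map_ev`, `map_SW`), so `G k m A (U V - A) = 0` over `P`; specialise `P → R` (`MvPolynomial.aeval`).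
Last, `c`: `Tw.mat` (`X = A - c`, `Y = UV - (A - c)`, twist by `c` and `0`) for `b = false` and
`b = true`. -/
def GenS : Prop := ∀ k : List Bool → ℚ, Tw k → ∀ m : ℕ,
  (∀ (F : Type) [Field F] [Algebra ℚ F] [IsAlgClosed F] (n : ℕ) (A : Matrix (Fin n) (Fin n) F)
    (U : Matrix (Fin n) (Fin 2) F) (V : Matrix (Fin 2) (Fin n) F), G k m A (U * V - A) = 0) →
  ∀ (R : Type) [CommRing R] [Algebra ℚ R] (n : ℕ) (A : Matrix (Fin n) (Fin n) R) (c : R)
    (U : Matrix (Fin n) (Fin 2) R) (V : Matrix (Fin 2) (Fin n) R),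
    G k m A (c • (1 : Matrix (Fin n) (Fin n) R) + U * V - A) = 0

/-- [gn3] all 3×3 matrices. PROOF. Over an algebraically closed field `F`: `A + B` has an eigenvalue
`c`, so `A + B - c` has rank `≤ 2` and is `U V` with `U : 3×2`, `V : 2×3` (a matrix with a nonzero vector
in its kernel: choose a basis with this vector, or `Matrix.rank` / range of dimension `≤ 2`). Apply the
hypothesis to `A - c` and use `Tw.mat` (twist by `c` and `0`) for `b = false, true`. Then base change as in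
[gen], with two generic 3×3 matrices. -/
def Gn3S : Prop := ∀ k : List Bool → ℚ, Tw k → ∀ m : ℕ,
  (∀ (F : Type) [Field F] [Algebra ℚ F] [IsAlgClosed F] (A : Matrix (Fin 3) (Fin 3) F)
    (U : Matrix (Fin 3) (Fin 2) F) (V : Matrix (Fin 2) (Fin 3) F), G k m A (U * V - A) = 0) →
  ∀ (R : Type) [CommRing R] [Algebra ℚ R] (A B : Matrix (Fin 3) (Fin 3) R), G k m A B = 0

/-- [tra] translation. PROOF. `Dl ψ (0w) - Dl ψ (1w) = K(0w) - K(1 w̄) - K(1w) + K(0 w̄) =
-(ψ'|w) - (ψ'|w̄)` with `w̄ = w.map not`, `ψ' = sgn ψ` (`K(0w) - K(1w) = (φ₀ - φ₁|w) = -(ψ'|w)`). So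
`G = 0` for all `m` gives `∑_{|w| = m} (ψ'|w) w(A,B) + ∑_{|w| = m} (ψ'|w) w(B,A) = 0` for all `m`, that is
`ψ'(A,B) + ψ'(B,A) = 0` (sum over all `m`; `tw_coeff`: the value of `tw_EV A B ψ'` at 1 is `ψ'(A,B)`; or
linear extension from words), i.e. `evalM A (-B) ψ + evalM B (-A) ψ = 0`. For a Lie element `ψ`:
`evalM X Y (dual ψ) = -evalM (-Y) (-X) ψ` (`lie_induction`: both sides are linear; on letters:
`dual x₀ = x₁`; `dual [u,v] = [dual v, dual u] = -[dual u, dual v]`). With `X = A`, `Y = -B`. -/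
def TraS : Prop := ∀ (R ι : Type) [CommRing R] [Algebra ℚ R] [Fintype ι] [DecidableEq ι],
  ∀ ψ ∈ dm0, ∀ A B : Matrix ι ι R, (∀ m : ℕ, G (Dl ψ) m A B = 0) →
    evalM A (-B) ψ = evalM A (-B) (dual ψ)

/-- [cen] a matrix over a commutative `ℚ`-algebra depending polynomially on two generic 3×3 matrices.
Precisely: an element `h` of `QX` whose value at every pair of 3×3 matrices over every commutative
`ℚ`-algebra commutes with both matrices and has trace 0 has value 0.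
PROOF. Generic matrices `A`, `B` over `P = MvPolynomial (Fin 3 × Fin 3 ⊕ Fin 3 × Fin 3) ℚ` (a domain),
`H = h(A,B)`. The nine matrices `A^i B^j` (`i, j < 3`), written as the rows of a 9×9 matrix `N` over `P`:
`det N ≠ 0`, since at `A = diag(0,1,2)`, `B` = the cyclic permutation matrix the nine matrices
form a basis of `M_3(ℚ)` (the specialised `N` is invertible: give the inverse, or: `diag(0,1,2)^i`
are a basis of the diagonal matrices by Vandermonde, and `B^j` moves them to the three generalised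
diagonals). `H` commutes with all `A^i B^j`, so (Cramer: `adjugate N * N = det N`) with
`det N • E_pq` for all matrix units, so with `E_pq`; so `H` is scalar, and its trace `3 H_00` is 0. Every
pair over `R` is a specialisation of the generic pair. -/
def CenS : Prop := ∀ h : QX,
  (∀ (R : Type) [CommRing R] [Algebra ℚ R] (A B : Matrix (Fin 3) (Fin 3) R),
    evalM A B h * A = A * evalM A B h ∧ evalM A B h * B = B * evalM A B h ∧
      (evalM A B h).trace = 0) →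
  ∀ (R : Type) [CommRing R] [Algebra ℚ R] (A B : Matrix (Fin 3) (Fin 3) R), evalM A B h = 0

/-- [hex] the hexagon relation on 3×3 matrices, from duality and the two-term relation.
PROOF. Write `f(X,Y) = evalM X (-Y) ψ`. `two_term h` evaluated at `x₀ = X`, `x₁ = -Y`:
`[X, f(X,Y)] + [Z, f(Z,Y)] = 0` if `X + Y + Z = 0`. Duality and `ψ ∈ LieX` (see [tra]) give
`f(X,Y) = -f(Y,X)`. Let `A + B + C = 0` and `H = f(A,B) + f(B,C) + f(C,A)`. Then
`[A,H] = [A,f(A,B)] + [A,f(B,C)] - [A,f(A,C)] = -[C,f(C,B)] + [A,f(B,C)] + [B,f(B,C)] =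
[A + B + C, f(B,C)] = 0`, and by symmetry `[B,H] = 0`. The trace of `H` is 0 (values of Lie elements
without linear part; `tr [u,v] = 0`). `H` is the value at `(A, B)` of the element
`h = s₁ ψ + s₂ ψ + s₃ ψ ∈ QX`, `s_i` the algebra maps `(x₀,x₁) ↦ (x₀,-x₁), (x₁, x₀+x₁), (-x₀-x₁, -x₀)`.
Apply `CenS`. -/
def HexS : Prop := CenS → ∀ ψ ∈ dm0,
  (∀ (R : Type) [CommRing R] [Algebra ℚ R] (X Y : Matrix (Fin 3) (Fin 3) R),
    evalM X Y ψ = evalM X Y (dual ψ)) →
  ∀ (R : Type) [CommRing R] [Algebra ℚ R] (A B : Matrix (Fin 3) (Fin 3) R),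
    evalM A (-B) ψ + evalM B (A + B) ψ + evalM (-A - B) (-A) ψ = 0

end Pool.Agent.MP_a57f33_nt.RD
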